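import Pool.Agent.R623.AF.Stm

/-!
Zero estimate for `∑ c i l choose(X, i) Y^l` at the points `(r p + s k, α^s)` over `ℂ`.
-/

set_option autoImplicit false

namespace Pool.Agent.R623.AF

open Finset Polynomial

namespace ZERaux

lemma natDegree_det_le' {m d : ℕ} (D : Matrix (Fin m) (Fin m) ℂ[X])
    (h : ∀ r t, (D r t).natDegree ≤ d) : D.det.natDegree ≤ m * d := by
  rw [Matrix.det_apply]
  apply natDegree_sum_le_of_forall_le
  intro g _
  calc
    natDegree (Equiv.Perm.sign g • ∏ i, D (g i) i) ≤ natDegree (∏ i, D (g i) i) := by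
      rcases Int.units_eq_one_or (Equiv.Perm.sign g) with sg | sg
      · rw [sg, one_smul]
      · rw [sg, Units.neg_smul, one_smul, natDegree_neg]
    _ ≤ ∑ i, natDegree (D (g i) i) := natDegree_prod_le _ _
    _ ≤ ∑ _i : Fin m, d := sum_le_sum (fun i _ => h _ _)
    _ = m * d := by simp

lemma coeff_prod' {ι : Type} [DecidableEq ι] (s : Finset ι) (f : ι → ℂ[X]) (d : ι → ℕ)
    (h : ∀ i ∈ s, (f i).natDegree ≤ d i) :
    (∏ i ∈ s, f i).natDegree ≤ ∑ i ∈ s, d i ∧
      (∏ i ∈ s, f i).coeff (∑ i ∈ s, d i) = ∏ i ∈ s, (f i).coeff (d i) := by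
  induction s using Finset.induction_on with
  | empty => simp
  | insert a s ha ih =>
    obtain ⟨h1, h2⟩ := ih (fun i hi => h i (Finset.mem_insert_of_mem hi))
    have h3 := h a (Finset.mem_insert_self a s)
    rw [Finset.prod_insert ha, Finset.sum_insert ha, Finset.prod_insert ha]
    refine ⟨natDegree_mul_le.trans (Nat.add_le_add h3 h1), ?_⟩
    rw [coeff_mul_add_eq_of_natDegree_le h3 h1, h2]

lemma coeff_det {m : ℕ} (D : Matrix (Fin m) (Fin m) ℂ[X]) (d : Fin m → ℕ)
    (h : ∀ r t, (D r t).natDegree ≤ d t) :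
    D.det.coeff (∑ t, d t) = (Matrix.of fun r t : Fin m => (D r t).coeff (d t)).det := by
  rw [Matrix.det_apply, Matrix.det_apply, finsetSum_coeff]
  refine Finset.sum_congr rfl (fun g _ => ?_)
  have h1 := (coeff_prod' univ (fun i => D (g i) i) d (fun i _ => h _ _)).2
  have h2 : (Equiv.Perm.sign g • ∏ i, D (g i) i).coeff (∑ t, d t)
      = Equiv.Perm.sign g • (∏ i, D (g i) i).coeff (∑ t, d t) := by
    rcases Int.units_eq_one_or (Equiv.Perm.sign g) with sg | sg
    · rw [sg, one_smul, one_smul]
    · rw [sg, Units.neg_smul, one_smul, Units.neg_smul, one_smul, coeff_neg]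
  rw [h2, h1]
  rfl

/-- the polynomial of the column `l`. -/
noncomputable def PP {A L : ℕ} (c : Fin A → Fin L → ℂ) (l : Fin L) : ℂ[X] :=
  ∑ i : Fin A, C (c i l / ((i : ℕ).factorial : ℂ)) * descPochhammer ℂ (i : ℕ)

lemma PP_eval {A L : ℕ} (c : Fin A → Fin L → ℂ) (l : Fin L) (n : ℕ) :
    (PP c l).eval (n : ℂ) = ∑ i : Fin A, c i l * (n.choose (i : ℕ) : ℂ) := by
  unfold PP
  rw [eval_finsetSum]
  refine Finset.sum_congr rfl (fun i _ => ?_)
  rw [eval_mul, eval_C, descPochhammer_eval_eq_descFactorial,
    Nat.descFactorial_eq_factorial_mul_choose]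
  have : ((i : ℕ).factorial : ℂ) ≠ 0 := by exact_mod_cast (Nat.factorial_pos _).ne'
  push_cast
  field_simp

lemma PP_deg {A L : ℕ} (c : Fin A → Fin L → ℂ) (l : Fin L) : (PP c l).natDegree ≤ A - 1 := by
  unfold PP
  apply natDegree_sum_le_of_forall_le
  intro i _
  refine (natDegree_C_mul_le _ _).trans ?_
  rw [descPochhammer_natDegree]
  have := i.2
  omega

lemma PP_zero {A L : ℕ} (c : Fin A → Fin L → ℂ) (l : Fin L) (h : PP c l = 0) :
    ∀ i : Fin A, c i l = 0 := by
  have key : ∀ n : ℕ, ∀ hn : n < A, c ⟨n, hn⟩ l = 0 := by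
    intro n
    induction n using Nat.strong_induction_on with
    | _ n ih =>
      intro hn
      have h1 := PP_eval c l n
      rw [h, eval_zero, Finset.sum_eq_single (⟨n, hn⟩ : Fin A)] at h1
      · simpa using h1.symm
      · intro j _ hj
        rcases lt_trichotomy (j : ℕ) n with hlt | heq | hgt
        · have := ih j hlt j.2
          rw [show (⟨(j : ℕ), j.2⟩ : Fin A) = j from rfl] at this
          rw [this, zero_mul]
        · exact absurd (Fin.ext heq) hj
        · rw [Nat.choose_eq_zero_of_lt hgt]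
          simp
      · intro h2
        exact absurd (Finset.mem_univ _) h2
  exact fun i => key i i.2

end ZERaux

open ZERaux

theorem ZER : S_ZER := by
  intro A L R S' p k α hkp hSp hp hα hαe hM c h
  classical
  set P : Fin L → ℂ[X] := PP c with hP
  have hPdeg : ∀ l, (P l).natDegree ≤ A - 1 := PP_deg c
  by_contra hc
  set S : Finset (Fin L) := univ.filter (fun l => P l ≠ 0) with hS
  have hSne : S.Nonempty := by
    by_contra hne
    rw [Finset.not_nonempty_iff_eq_empty] at hne
    apply hc
    ext i l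
    have : P l = 0 := by
      by_contra h0
      have : l ∈ S := by simp [hS, h0]
      rw [hne] at this
      simp at this
    exact PP_zero c l this i
  set m := S.card with hm
  have hmL : m ≤ L := by
    have := card_le_univ S
    simpa using this
  have hmpos : 0 < m := card_pos.mpr hSne
  set e : Fin m → Fin L := fun t => S.orderEmbOfFin hm.symm t with he
  have heinj : Function.Injective e := (S.orderEmbOfFin hm.symm).injective
  have heS : ∀ t, P (e t) ≠ 0 := by
    intro t
    have : e t ∈ S := S.orderEmbOfFin_mem hm.symm t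
    simpa [hS] using this
  have heimg : univ.image e = S := by
    apply Finset.eq_of_subset_of_card_le
    · intro x hx
      simp only [mem_image, mem_univ, true_and] at hx
      obtain ⟨t, rfl⟩ := hx
      exact S.orderEmbOfFin_mem hm.symm t
    · rw [card_image_of_injective _ heinj]
      simp [hm]
  set D : Matrix (Fin m) (Fin m) ℂ[X] := Matrix.of fun r t =>
    (P (e t)).comp (X + C (((r : ℕ) * k : ℕ) : ℂ)) * C (α ^ ((r : ℕ) * (e t : ℕ))) with hD
  have hDent : ∀ r t, (D r t).natDegree ≤ (P (e t)).natDegree := by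
    intro r t
    simp only [hD, Matrix.of_apply]
    refine (natDegree_mul_C_le _ _).trans ?_
    rw [natDegree_comp, natDegree_X_add_C, mul_one]
  have hDdeg : D.det.natDegree ≤ m * (A - 1) :=
    natDegree_det_le' D (fun r t => (hDent r t).trans (hPdeg _))
  -- vanishing
  have hvan : ∀ r' s' : ℕ, r' < R → s' < S' → D.det.eval ((r' * p + s' * k : ℕ) : ℂ) = 0 := by
    intro r' s' hr' hs'
    have h1 : D.det.eval ((r' * p + s' * k : ℕ) : ℂ)
        = (D.map (Polynomial.eval ((r' * p + s' * k : ℕ) : ℂ))).det := by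
      have := RingHom.map_det (Polynomial.evalRingHom ((r' * p + s' * k : ℕ) : ℂ)) D
      simpa [RingHom.mapMatrix_apply] using this
    rw [h1]
    rw [← Matrix.exists_mulVec_eq_zero_iff]
    refine ⟨fun t => α ^ (s' * (e t : ℕ)), ?_, ?_⟩
    · intro h0
      have h2 := congrFun h0 ⟨0, hmpos⟩
      simp only [Pi.zero_apply] at h2
      exact pow_ne_zero _ hα h2
    · ext r
      simp only [Matrix.mulVec, dotProduct, Matrix.map_apply, hD, Matrix.of_apply, Pi.zero_apply,
        eval_mul, eval_comp, eval_add, eval_X, eval_C]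
      have hsum := h r' (s' + r) hr' (by have := r.2; omega)
      rw [Finset.sum_comm] at hsum
      have hPe : ∀ l : Fin L, ∑ i : Fin A, c i l *
          (((r' * p + (s' + r) * k).choose (i : ℕ) : ℂ) * α ^ ((s' + (r : ℕ)) * (l : ℕ))) =
          (P l).eval (((r' * p + (s' + r) * k : ℕ) : ℂ)) * α ^ ((s' + (r : ℕ)) * (l : ℕ)) := by
        intro l
        rw [hP, PP_eval, Finset.sum_mul]
        apply sum_congr rfl
        intro i _
        ring
      simp only [hPe] at hsum
      have hS2 : ∑ l : Fin L, (P l).eval (((r' * p + (s' + r) * k : ℕ) : ℂ)) *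
            α ^ ((s' + (r : ℕ)) * (l : ℕ)) =
          ∑ l ∈ S, (P l).eval (((r' * p + (s' + r) * k : ℕ) : ℂ)) *
            α ^ ((s' + (r : ℕ)) * (l : ℕ)) := by
        symm
        apply Finset.sum_subset (subset_univ _)
        intro l _ hl
        have : P l = 0 := by
          by_contra h0
          exact hl (by simp [hS, h0])
        simp [this]
      rw [hS2, ← heimg, Finset.sum_image (fun x _ y _ hxy => heinj hxy)] at hsum
      rw [← hsum]
      apply sum_congr rfl
      intro t _
      have h3 : ((r' * p + s' * k : ℕ) : ℂ) + (((r : ℕ) * k : ℕ) : ℂ)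
          = ((r' * p + (s' + r) * k : ℕ) : ℂ) := by push_cast; ring
      rw [h3, mul_assoc, ← pow_add]
      congr 2
      ring
  -- many zeros
  have hDzero : D.det = 0 := by
    set pts : Finset ℂ := ((range R) ×ˢ (range S')).image
      (fun x : ℕ × ℕ => ((x.1 * p + x.2 * k : ℕ) : ℂ)) with hpts
    have hcard : pts.card = R * S' := by
      rw [hpts, card_image_of_injOn]
      · simp
      · rintro ⟨r, s⟩ h1 ⟨r', s'⟩ h2 heq
        simp only [coe_product, Set.mem_prod, coe_range, Set.mem_Iio] at h1 h2
        simp only at heq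
        have heq' : r * p + s * k = r' * p + s' * k := by exact_mod_cast heq
        have hz : ((s : ℤ) - s') * k = ((r' : ℤ) - r) * p := by
          have : ((r * p + s * k : ℕ) : ℤ) = ((r' * p + s' * k : ℕ) : ℤ) := by rw [heq']
          push_cast at this
          linarith
        have hdvd : (p : ℤ) ∣ ((s : ℤ) - s') * k := ⟨(r' : ℤ) - r, by rw [hz]; ring⟩
        have hcop : IsCoprime (p : ℤ) (k : ℤ) := Nat.isCoprime_iff_coprime.mpr hkp.symm
        have hdvd2 : (p : ℤ) ∣ (s : ℤ) - s' := hcop.dvd_of_dvd_mul_right hdvd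
        have habs : |(s : ℤ) - s'| < p := by
          rw [abs_lt]
          constructor <;> omega
        have hss0 : (s : ℤ) - s' = 0 := Int.eq_zero_of_abs_lt_dvd hdvd2 habs
        have hs : s = s' := by omega
        subst hs
        simp only [sub_self, zero_mul] at hz
        have hrr : ((r' : ℤ) - r) = 0 := by
          rcases mul_eq_zero.mp hz.symm with h | h
          · exact h
          · exfalso; omega
        have : r = r' := by omega
        rw [this]
    apply eq_zero_of_natDegree_lt_card_of_eval_eq_zero' _ pts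
    · intro x hx
      rw [hpts, mem_image] at hx
      obtain ⟨⟨r, s⟩, hrs, rfl⟩ := hx
      simp only [mem_product, mem_range] at hrs
      exact hvan r s hrs.1 hrs.2
    · rw [hcard]
      calc D.det.natDegree ≤ m * (A - 1) := hDdeg
        _ ≤ L * (A - 1) := Nat.mul_le_mul_right _ hmL
        _ < R * S' := hM
  -- leading coefficient
  have hcd := coeff_det D (fun t => (P (e t)).natDegree) hDent
  have hent : ∀ r t, (D r t).coeff (P (e t)).natDegree
      = (P (e t)).leadingCoeff * α ^ ((r : ℕ) * (e t : ℕ)) := by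
    intro r t
    simp only [hD, Matrix.of_apply]
    rw [coeff_mul_C]
    congr 1
    set Q := (P (e t)).comp (X + C (((r : ℕ) * k : ℕ) : ℂ)) with hQ
    have hQdeg : Q.natDegree = (P (e t)).natDegree := by
      rw [hQ, natDegree_comp, natDegree_X_add_C, mul_one]
    have hQlead : Q.leadingCoeff = (P (e t)).leadingCoeff := by
      rw [hQ, leadingCoeff_comp (by rw [natDegree_X_add_C]; norm_num), leadingCoeff_X_add_C]
      simp
    rw [← hQdeg, ← hQlead]
    rfl
  simp only [hent] at hcd
  rw [hDzero, coeff_zero] at hcd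
  have hV : (Matrix.of fun r t : Fin m => α ^ ((r : ℕ) * (e t : ℕ))).det ≠ 0 := by
    have h1 : (Matrix.of fun r t : Fin m => α ^ ((r : ℕ) * (e t : ℕ)))
        = (Matrix.vandermonde (fun t : Fin m => α ^ (e t : ℕ))).transpose := by
      ext r t
      simp only [Matrix.of_apply, Matrix.transpose_apply, Matrix.vandermonde_apply]
      rw [← pow_mul, mul_comm]
    rw [h1, Matrix.det_transpose, Matrix.det_vandermonde_ne_zero_iff]
    have key : ∀ a b : ℕ, a < b → b < L → α ^ a ≠ α ^ b := by
      intro a b hab hb heq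
      have h2 : α ^ b = α ^ a * α ^ (b - a) := by rw [← pow_add]; congr 1; omega
      rw [h2] at heq
      have h3 : α ^ (b - a) = 1 := by
        have h4 : α ^ a * α ^ (b - a) = α ^ a * 1 := by rw [mul_one]; exact heq.symm
        exact mul_left_cancel₀ (pow_ne_zero _ hα) h4
      exact hαe (b - a) (by omega) (by omega) h3
    intro t t' htt
    simp only at htt
    apply heinj
    apply Fin.ext
    rcases lt_trichotomy (e t : ℕ) (e t' : ℕ) with hlt | heq | hgt
    · exact absurd htt (key _ _ hlt (e t').2)
    · exact heq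
    · exact absurd htt.symm (key _ _ hgt (e t).2)
  have hfin2 := Matrix.det_mul_row (fun t => (P (e t)).leadingCoeff)
    (Matrix.of fun r t : Fin m => α ^ ((r : ℕ) * (e t : ℕ)))
  simp only [Matrix.of_apply] at hfin2
  rw [hfin2] at hcd
  rcases mul_eq_zero.mp hcd.symm with h1 | h1
  · rw [Finset.prod_eq_zero_iff] at h1
    obtain ⟨t, _, ht⟩ := h1
    exact heS t (leadingCoeff_eq_zero.mp ht)
  · exact hV h1

end Pool.Agent.R623.AF
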