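import Pool.Agent.R974.BW.Defs

/-!
Project BW, piece MK: the finite-dimensional laws of the killed motion.
-/

set_option autoImplicit false

namespace Pool.Agent.R92.BW

open MeasureTheory ProbabilityTheory Filter Topology Set
open Pool.Agent.R967.FB Pool.Agent.R974.BW
open scoped ENNReal NNReal

lemma stp_apply (s : ℝ≥0) (w : Pth) (t : ℝ≥0) : stp s w t = w (min t s) := rfl

lemma stp_mem_Up (x : ℝ) (s : ℝ≥0) (w : Pth) : stp s w ∈ Up x s ↔ w ∈ Up x s := by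
  constructor
  · intro h r hr
    have := h r hr
    rwa [stp_apply, min_eq_left hr] at this
  · intro h r hr
    rw [stp_apply, min_eq_left hr]
    exact h r hr

lemma meas_UpP (hUPM : S_UPM) (t : ℝ≥0) : MeasurableSet {p : ℝ × Pth | p.2 ∈ Up p.1 t} :=
  (hUPM t).measurableSet

lemma meas_Up (hUPM : S_UPM) (x : ℝ) (t : ℝ≥0) : MeasurableSet (Up x t) := by
  have h : Measurable (fun w : Pth => ((x, w) : ℝ × Pth)) := measurable_prodMk_left
  exact h (meas_UpP hUPM t)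

/-- joint measurability -/
lemma meas_PF (hUPM : S_UPM) (ψ : ℝ → ℝ≥0∞) (hψ : Measurable ψ)
    (L : List (ℝ≥0 × (ℝ → ℝ≥0∞))) (hL : ∀ p ∈ L, 0 < p.1 ∧ Measurable p.2) :
    Measurable (fun p : ℝ × Pth => PF L ψ p.1 p.2) := by
  induction L with
  | nil => exact hψ.comp measurable_fst
  | cons q L ih =>
    have ih' := ih (fun p hp => hL p (List.mem_cons_of_mem _ hp))
    have hq := (hL q List.mem_cons_self).2
    have hy : Measurable (fun p : ℝ × Pth => p.1 + p.2 q.1) :=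
      measurable_fst.add ((measurable_eval q.1).comp measurable_snd)
    have h1 : Measurable (fun p : ℝ × Pth => q.2 (p.1 + p.2 q.1) *
        PF L ψ (p.1 + p.2 q.1) (shift q.1 p.2)) :=
      (hq.comp hy).mul (ih'.comp (hy.prodMk ((measurable_shift q.1).comp measurable_snd)))
    have h2 := h1.indicator (meas_UpP hUPM q.1)
    suffices h3 : (fun p : ℝ × Pth => PF (q :: L) ψ p.1 p.2) =
        {p : ℝ × Pth | p.2 ∈ Up p.1 q.1}.indicator (fun p => q.2 (p.1 + p.2 q.1) *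
        PF L ψ (p.1 + p.2 q.1) (shift q.1 p.2)) by
      rw [h3]
      exact h2
    funext p
    obtain ⟨x, w⟩ := p
    simp only [PF]
    by_cases h : w ∈ Up x q.1
    · have h' : ((x, w) : ℝ × Pth) ∈ {p : ℝ × Pth | p.2 ∈ Up p.1 q.1} := h
      rw [indicator_of_mem h, indicator_of_mem h']
    · have h' : ((x, w) : ℝ × Pth) ∉ {p : ℝ × Pth | p.2 ∈ Up p.1 q.1} := h
      rw [indicator_of_notMem h, indicator_of_notMem h']

/-- the functional with two paths -/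
noncomputable def Ph (q : ℝ≥0 × (ℝ → ℝ≥0∞)) (L : List (ℝ≥0 × (ℝ → ℝ≥0∞))) (ψ : ℝ → ℝ≥0∞) (x : ℝ)
    (p : Pth × Pth) : ℝ≥0∞ :=
  {p : Pth × Pth | p.1 ∈ Up x q.1}.indicator
    (fun p => q.2 (x + p.1 q.1) * PF L ψ (x + p.1 q.1) p.2) p

lemma meas_Ph (hUPM : S_UPM) (q : ℝ≥0 × (ℝ → ℝ≥0∞)) (L : List (ℝ≥0 × (ℝ → ℝ≥0∞)))
    (ψ : ℝ → ℝ≥0∞) (x : ℝ) (hq : Measurable q.2)
    (hPF : Measurable (fun p : ℝ × Pth => PF L ψ p.1 p.2)) : Measurable (Ph q L ψ x) := by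
  have hy : Measurable (fun p : Pth × Pth => x + p.1 q.1) :=
    measurable_const.add ((measurable_eval q.1).comp measurable_fst)
  have h1 : Measurable (fun p : Pth × Pth => q.2 (x + p.1 q.1) * PF L ψ (x + p.1 q.1) p.2) :=
    (hq.comp hy).mul (hPF.comp (hy.prodMk measurable_snd))
  exact h1.indicator (measurable_fst (meas_Up hUPM x q.1))

lemma PF_cons (q : ℝ≥0 × (ℝ → ℝ≥0∞)) (L : List (ℝ≥0 × (ℝ → ℝ≥0∞))) (ψ : ℝ → ℝ≥0∞) (x : ℝ)
    (w : Pth) : PF (q :: L) ψ x w = Ph q L ψ x (stp q.1 w, shift q.1 w) := by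
  have h0 : stp q.1 w q.1 = w q.1 := by rw [stp_apply, min_self]
  unfold Ph
  simp only [PF]
  by_cases h : w ∈ Up x q.1
  · have h' : ((stp q.1 w, shift q.1 w) : Pth × Pth) ∈ {p : Pth × Pth | p.1 ∈ Up x q.1} :=
      (stp_mem_Up x q.1 w).mpr h
    rw [indicator_of_mem h, indicator_of_mem h']
    simp only [h0]
  · have h' : ((stp q.1 w, shift q.1 w) : Pth × Pth) ∉ {p : Pth × Pth | p.1 ∈ Up x q.1} :=
      fun h2 => h ((stp_mem_Up x q.1 w).mp h2)
    rw [indicator_of_notMem h, indicator_of_notMem h']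

lemma Ph_int (W : Measure Pth) (q : ℝ≥0 × (ℝ → ℝ≥0∞)) (L : List (ℝ≥0 × (ℝ → ℝ≥0∞)))
    (ψ : ℝ → ℝ≥0∞) (x : ℝ) (hPF : Measurable (fun p : ℝ × Pth => PF L ψ p.1 p.2)) (w : Pth) :
    ∫⁻ w₂, Ph q L ψ x (stp q.1 w, w₂) ∂W =
      (Up x q.1).indicator (fun w => q.2 (x + w q.1) * ∫⁻ w₂, PF L ψ (x + w q.1) w₂ ∂W) w := by
  have h0 : stp q.1 w q.1 = w q.1 := by rw [stp_apply, min_self]
  unfold Ph
  by_cases h : w ∈ Up x q.1
  · have h' : ∀ w₂ : Pth, ((stp q.1 w, w₂) : Pth × Pth) ∈ {p : Pth × Pth | p.1 ∈ Up x q.1} :=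
      fun _ => (stp_mem_Up x q.1 w).mpr h
    rw [indicator_of_mem h]
    have h2 : ∀ w₂ : Pth, {p : Pth × Pth | p.1 ∈ Up x q.1}.indicator
        (fun p => q.2 (x + p.1 q.1) * PF L ψ (x + p.1 q.1) p.2) (stp q.1 w, w₂)
        = q.2 (x + w q.1) * PF L ψ (x + w q.1) w₂ := by
      intro w₂
      rw [indicator_of_mem (h' w₂)]
      simp only [h0]
    simp only [h2]
    rw [lintegral_const_mul]
    exact hPF.comp measurable_prodMk_left
  · have h' : ∀ w₂ : Pth, ((stp q.1 w, w₂) : Pth × Pth) ∉ {p : Pth × Pth | p.1 ∈ Up x q.1} :=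
      fun _ h2 => h ((stp_mem_Up x q.1 w).mp h2)
    rw [indicator_of_notMem h]
    have h2 : ∀ w₂ : Pth, {p : Pth × Pth | p.1 ∈ Up x q.1}.indicator
        (fun p => q.2 (x + p.1 q.1) * PF L ψ (x + p.1 q.1) p.2) (stp q.1 w, w₂) = 0 :=
      fun w₂ => indicator_of_notMem (h' w₂) _
    simp only [h2, lintegral_zero]

theorem t_MK (hREF : S_REF) (hMKV : S_MKV) (hUPM : S_UPM) : S_MK := by
  intro W hW L ψ x hL hψ hx
  have hWp : IsProbabilityMeasure W := hW.isGaussianProcess.isProbabilityMeasure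
  induction L generalizing x with
  | nil => simp [PF, NK]
  | cons q L ih =>
    have hL' : ∀ p ∈ L, 0 < p.1 ∧ Measurable p.2 := fun p hp => hL p (List.mem_cons_of_mem _ hp)
    have hq := hL q List.mem_cons_self
    have hPF := meas_PF hUPM ψ hψ L hL'
    have hφ : Measurable (fun y : ℝ => q.2 y * ∫⁻ w₂, PF L ψ y w₂ ∂W) :=
      hq.2.mul hPF.lintegral_prod_right'
    calc ∫⁻ w, PF (q :: L) ψ x w ∂W
        = ∫⁻ w, Ph q L ψ x (stp q.1 w, shift q.1 w) ∂W :=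
          lintegral_congr (fun w => PF_cons q L ψ x w)
      _ = ∫⁻ w₁, ∫⁻ w₂, Ph q L ψ x (stp q.1 w₁, w₂) ∂W ∂W :=
          hMKV W hW q.1 (Ph q L ψ x) (meas_Ph hUPM q L ψ x hq.2 hPF)
      _ = ∫⁻ w, (Up x q.1).indicator
            (fun w => q.2 (x + w q.1) * ∫⁻ w₂, PF L ψ (x + w q.1) w₂ ∂W) w ∂W :=
          lintegral_congr (fun w => Ph_int W q L ψ x hPF w)
      _ = ∫⁻ w in Up x q.1, q.2 (x + w q.1) * ∫⁻ w₂, PF L ψ (x + w q.1) w₂ ∂W ∂W :=
          lintegral_indicator (meas_Up hUPM x q.1) _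
      _ = KQ q.1 (fun y => q.2 y * ∫⁻ w₂, PF L ψ y w₂ ∂W) x :=
          hREF W hW x q.1 (fun y => q.2 y * ∫⁻ w₂, PF L ψ y w₂ ∂W) hx hq.1 hφ
      _ = NK (q :: L) ψ x := by
          simp only [NK]
          unfold KQ
          refine setLIntegral_congr_fun measurableSet_Ioi (fun y hy => ?_)
          simp only
          rw [ih y hL' hy]

end Pool.Agent.R92.BW
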