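import Pool.Agent.R955.FD.Defs

/-!
# Piece ENL: norms over bounded intervals exhaust the norm
-/

set_option autoImplicit false

namespace Pool.Agent.R92.FDENL

open MeasureTheory Set Filter Topology Pool.Agent.R955.FD
open scoped ENNReal

universe u

lemma icc_mono {R R' : ℕ} (h : R ≤ R') : Icc (-(R : ℝ)) R ⊆ Icc (-(R' : ℝ)) R' := by
  have : (R : ℝ) ≤ R' := by exact_mod_cast h
  exact Icc_subset_Icc (by linarith) this

lemma icc_union : (⋃ R : ℕ, Icc (-(R : ℝ)) R) = univ := by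
  rw [eq_univ_iff_forall]
  intro x
  obtain ⟨R, hR⟩ := exists_nat_ge |x|
  exact mem_iUnion.mpr ⟨R, abs_le.mp hR⟩

theorem t_ENL : S_ENL.{u} := by
  intro X _ _ f p hf
  have hmono : ∀ R R' : ℕ, R ≤ R' → eLpNorm f p (volume.restrict (Icc (-(R : ℝ)) R)) ≤
      eLpNorm f p (volume.restrict (Icc (-(R' : ℝ)) R')) := fun R R' h =>
    eLpNorm_mono_measure f (Measure.restrict_mono (icc_mono h) le_rfl)
  refine ⟨hmono, ?_⟩
  refine le_antisymm ?_ (iSup_le fun R => eLpNorm_mono_measure f Measure.restrict_le_self)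
  rcases eq_or_ne p 0 with rfl | hp0
  · simp
  rcases eq_or_ne p ∞ with rfl | hpt
  · simp only [eLpNorm_exponent_top]
    refine essSup_le_of_ae_le _ ?_
    have key : ∀ᵐ x ∂(volume.restrict (⋃ R : ℕ, Icc (-(R : ℝ)) R)),
        ‖f x‖ₑ ≤ ⨆ R : ℕ, eLpNormEssSup f (volume.restrict (Icc (-(R : ℝ)) R)) := by
      rw [ae_restrict_iUnion_iff]
      intro R
      filter_upwards [enorm_ae_le_eLpNormEssSup f (volume.restrict (Icc (-(R : ℝ)) R))] with x hx
      exact hx.trans (le_iSup (fun R : ℕ => eLpNormEssSup f (volume.restrict (Icc (-(R : ℝ)) R))) R)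
    rw [icc_union, Measure.restrict_univ] at key
    exact key
  · have hpos : 0 < p.toReal := ENNReal.toReal_pos hp0 hpt
    have hpos' : 0 < 1 / p.toReal := one_div_pos.mpr hpos
    simp only [eLpNorm_eq_lintegral_rpow_enorm_toReal hp0 hpt]
    have h1 : ∫⁻ x, ‖f x‖ₑ ^ p.toReal
        = ⨆ R : ℕ, ∫⁻ x in Icc (-(R : ℝ)) R, ‖f x‖ₑ ^ p.toReal := by
      rw [← setLIntegral_iUnion_of_directed, icc_union, Measure.restrict_univ]
      exact directed_of_isDirected_le (fun a b h => icc_mono h)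
    rw [h1]
    have h2 := (ENNReal.orderIsoRpow (1 / p.toReal) hpos').map_iSup
      (fun R : ℕ => ∫⁻ x in Icc (-(R : ℝ)) R, ‖f x‖ₑ ^ p.toReal)
    simp only [ENNReal.orderIsoRpow_apply] at h2
    rw [h2]

end Pool.Agent.R92.FDENL
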