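import Pool.Agent.R537.LR.Stm

/-!
# Low-rank approximation: the gates of a system (piece GC)
-/

set_option autoImplicit false

namespace Pool.Agent.R92.LRGC

open Pool.Agent.NPC Pool.Agent.NPC.ER Pool.Agent.NPC.R537LR

/-- the value of the auxiliary variable -/
noncomputable def ax (w : ℕ → ℝ) : Option ER.Con → ℝ
  | some (ER.Con.add i j _) => (w i + w j) / 2
  | _ => 0

/-- the values of all variables -/
noncomputable def vv (w : ℕ → ℝ) (V : List ℕ) (S : List ER.Con) (n : ℕ) : ℝ :=
  if n = 0 then 0 else if n % 2 = 1 then w (V.getD (n / 2) 0) else ax w (S[n / 2 - 1]?)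

lemma vv_zero (w : ℕ → ℝ) (V : List ℕ) (S : List ER.Con) : vv w V S 0 = 0 := by
  simp [vv]

lemma vv_ixv (w : ℕ → ℝ) (V : List ℕ) (S : List ER.Con) (i : ℕ) (hi : i ∈ V) :
    vv w V S (ixv V i) = w i := by
  unfold vv ixv
  have h1 : (2 * V.idxOf i + 1) / 2 = V.idxOf i := by omega
  have h2 : (2 * V.idxOf i + 1) % 2 = 1 := by omega
  rw [if_neg (by omega), if_pos h2, h1]
  have h3 : V.idxOf i < V.length := List.idxOf_lt_length_of_mem hi
  rw [List.getD_eq_getElem _ _ h3, List.getElem_idxOf]

lemma vv_aux (w : ℕ → ℝ) (V : List ℕ) (S : List ER.Con) (t : ℕ) :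
    vv w V S (2 * t + 2) = ax w (S[t]?) := by
  unfold vv
  have h1 : (2 * t + 2) / 2 - 1 = t := by omega
  rw [if_neg (by omega), if_neg (by omega), h1]

lemma ixv_lt (S : List ER.Con) (i : ℕ) : ixv (svars S) i < n0 S := by
  unfold ixv n0
  have := List.idxOf_le_length (l := svars S) (a := i)
  omega

lemma aux_lt (S : List ER.Con) (t : ℕ) (ht : t < S.length) : 2 * t + 2 < n0 S := by
  unfold n0
  omega

lemma zero_lt (S : List ER.Con) : 0 < n0 S := by
  unfold n0
  omega

theorem t_GC : S_GC := by
  intro S
  refine ⟨⟨?_, ?_⟩, ?_⟩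
  · rintro ⟨w, hw⟩
    refine ⟨vv w (svars S) S, fun g hg => ?_⟩
    unfold G0 at hg
    rcases List.mem_cons.mp hg with rfl | hg
    · simp [GHolds, vv_zero]
    · obtain ⟨⟨c, t⟩, hp, hg⟩ := List.mem_flatMap.mp hg
      have hct : S[t]? = some c := List.mem_zipIdx_iff_getElem?.mp hp
      have hc : c ∈ S := List.mem_of_getElem? hct
      have hH := hw c hc
      have hv : ∀ i ∈ c.vars, vv w (svars S) S (ixv (svars S) i) = w i := fun i hi =>
        vv_ixv w (svars S) S i (mem_svars hc hi)
      have ha := vv_aux w (svars S) S t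
      rw [hct] at ha
      cases c with
      | one i =>
        simp only [gcon, List.mem_singleton] at hg
        subst hg
        have h1 := hv i (by simp [ER.Con.vars])
        simp only [ER.Con.Holds] at hH
        simp [GHolds, h1, hH]
      | add i j k =>
        simp only [gcon, List.mem_cons, List.not_mem_nil, or_false] at hg
        have h1 := hv i (by simp [ER.Con.vars])
        have h2 := hv j (by simp [ER.Con.vars])
        have h3 := hv k (by simp [ER.Con.vars])
        simp only [ER.Con.Holds] at hH
        simp only [ax] at ha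
        rcases hg with rfl | rfl
        · simp only [GHolds]
          norm_num
          rw [h1, h2, ha]
          ring
        · simp only [GHolds]
          norm_num
          rw [h3, ha, vv_zero, ← hH]
          ring
      | mul i j k =>
        simp only [gcon, List.mem_singleton] at hg
        subst hg
        have h1 := hv i (by simp [ER.Con.vars])
        have h2 := hv j (by simp [ER.Con.vars])
        have h3 := hv k (by simp [ER.Con.vars])
        simp only [ER.Con.Holds] at hH
        simp only [GHolds]
        norm_num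
        rw [h1, h2, h3, hH]
  · rintro ⟨v, hv⟩
    have h0 := hv (1, 0, 0, 0, 0) (by simp [G0])
    have hz : v 0 = 0 := by simpa [GHolds] using h0
    refine ⟨fun i => v (ixv (svars S) i), fun c hc => ?_⟩
    obtain ⟨t, ht, hct⟩ := List.getElem_of_mem hc
    have hp : (c, t) ∈ S.zipIdx :=
      List.mem_zipIdx_iff_getElem?.mpr (List.getElem?_eq_some_iff.mpr ⟨ht, hct⟩)
    have hg : ∀ g ∈ gcon (svars S) c t, GHolds v g := fun g hg =>
      hv g (List.mem_cons_of_mem _ (List.mem_flatMap.mpr ⟨(c, t), hp, hg⟩))
    cases c with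
    | one i =>
      have h1 := hg (1, 0, 0, ixv (svars S) i, 8) (by simp [gcon])
      simpa [GHolds, ER.Con.Holds] using h1
    | add i j k =>
      have h1 := hg (2, ixv (svars S) i, ixv (svars S) j, 2 * t + 2, 0) (by simp [gcon])
      have h2 := hg (2, ixv (svars S) k, 0, 2 * t + 2, 0) (by simp [gcon])
      simp only [GHolds] at h1 h2
      norm_num at h1 h2
      simp only [ER.Con.Holds]
      rw [h1, ← h2, hz, add_zero]
    | mul i j k =>
      have h1 := hg (3, ixv (svars S) i, ixv (svars S) j, ixv (svars S) k, 0) (by simp [gcon])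
      simp only [GHolds] at h1
      norm_num at h1
      simp only [ER.Con.Holds]
      exact h1
  · intro g hg
    unfold G0 at hg
    rcases List.mem_cons.mp hg with rfl | hg
    · exact ⟨zero_lt S, zero_lt S, zero_lt S⟩
    · obtain ⟨⟨c, t⟩, hp, hg⟩ := List.mem_flatMap.mp hg
      have hct : S[t]? = some c := List.mem_zipIdx_iff_getElem?.mp hp
      have ht : t < S.length := (List.getElem?_eq_some_iff.mp hct).1
      cases c with
      | one i =>
        simp only [gcon, List.mem_singleton] at hg
        subst hg
        exact ⟨zero_lt S, zero_lt S, ixv_lt S i⟩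
      | add i j k =>
        simp only [gcon, List.mem_cons, List.not_mem_nil, or_false] at hg
        rcases hg with rfl | rfl
        · exact ⟨ixv_lt S i, ixv_lt S j, aux_lt S t ht⟩
        · exact ⟨ixv_lt S k, zero_lt S, aux_lt S t ht⟩
      | mul i j k =>
        simp only [gcon, List.mem_singleton] at hg
        subst hg
        exact ⟨ixv_lt S i, ixv_lt S j, ixv_lt S k⟩

end Pool.Agent.R92.LRGC
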