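import Mathlib
import Pool.Agent.Helper730.Kneser

set_option autoImplicit false
set_option linter.unusedSectionVars false

open Finset
open scoped Pointwise

namespace Pool.Agent.R92.Lev

open Pool.Agent.Helper730.Kneser

/-- `P` is an arithmetic progression with at least two elements: `P = {g + i d : 0 ≤ i < N}`. -/
def IsAP {G : Type*} [AddCommGroup G] (P : Finset G) : Prop :=
  2 ≤ P.card ∧ ∃ (g d : G) (N : ℕ), ∀ x, x ∈ P ↔ ∃ i : ℕ, i < N ∧ x = g + i • d

section chain

variable {m : ℕ}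

theorem unit_of_odd (u : ℕ) (hu : Odd u) : ∃ c : ZMod (2 ^ m), c * (u : ZMod (2 ^ m)) = 1 := by
  have h1 : IsUnit (u : ZMod (2 ^ m)) := by
    rw [ZMod.isUnit_iff_coprime]
    apply Nat.Coprime.pow_right
    exact (Nat.coprime_comm.mp (Nat.coprime_two_left.mpr hu))
  obtain ⟨v, hv⟩ := h1
  exact ⟨((v⁻¹ : (ZMod (2 ^ m))ˣ) : ZMod (2 ^ m)), by rw [← hv]; simp⟩

theorem chain_elem (x y : ZMod (2 ^ m)) : (∃ c, x = c * y) ∨ (∃ c, y = c * x) := by
  by_cases hx : x = 0
  · left; exact ⟨0, by simp [hx]⟩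
  by_cases hy : y = 0
  · right; exact ⟨0, by simp [hy]⟩
  have hx0 : x.val ≠ 0 := by rwa [Ne, ZMod.val_eq_zero]
  have hy0 : y.val ≠ 0 := by rwa [Ne, ZMod.val_eq_zero]
  obtain ⟨a, u, hu, hau⟩ := Nat.exists_eq_two_pow_mul_odd hx0
  obtain ⟨b, v, hv, hbv⟩ := Nat.exists_eq_two_pow_mul_odd hy0
  have ex : x = (2 : ZMod (2 ^ m)) ^ a * u := by
    rw [← ZMod.natCast_zmod_val x, hau]; push_cast; ring
  have ey : y = (2 : ZMod (2 ^ m)) ^ b * v := by
    rw [← ZMod.natCast_zmod_val y, hbv]; push_cast; ring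
  obtain ⟨cu, hcu⟩ := unit_of_odd (m := m) u hu
  obtain ⟨cv, hcv⟩ := unit_of_odd (m := m) v hv
  rcases Nat.le_total b a with hab | hab
  · left
    refine ⟨2 ^ (a - b) * u * cv, ?_⟩
    rw [ex, ey]
    have : (2 : ZMod (2 ^ m)) ^ a = 2 ^ (a - b) * 2 ^ b := by
      rw [← pow_add]; congr 1; omega
    rw [this]
    calc (2 : ZMod (2 ^ m)) ^ (a - b) * 2 ^ b * u
        = 2 ^ (a - b) * 2 ^ b * u * (cv * v) := by rw [hcv, mul_one]
      _ = _ := by ring
  · right
    refine ⟨2 ^ (b - a) * v * cu, ?_⟩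
    rw [ex, ey]
    have : (2 : ZMod (2 ^ m)) ^ b = 2 ^ (b - a) * 2 ^ a := by
      rw [← pow_add]; congr 1; omega
    rw [this]
    calc (2 : ZMod (2 ^ m)) ^ (b - a) * 2 ^ a * v
        = 2 ^ (b - a) * 2 ^ a * v * (cu * u) := by rw [hcu, mul_one]
      _ = _ := by ring

theorem mul_mem_sub (K : AddSubgroup (ZMod (2 ^ m))) (c y : ZMod (2 ^ m)) (hy : y ∈ K) :
    c * y ∈ K := by
  have : c * y = c.val • y := by
    rw [nsmul_eq_mul, ZMod.natCast_zmod_val]
  rw [this]
  exact K.nsmul_mem hy _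

theorem chain_sub (K H : AddSubgroup (ZMod (2 ^ m))) : K ≤ H ∨ H ≤ K := by
  by_contra hcon
  push Not at hcon
  obtain ⟨h1, h2⟩ := hcon
  rw [SetLike.not_le_iff_exists] at h1 h2
  obtain ⟨x, hxK, hxH⟩ := h1
  obtain ⟨y, hyH, hyK⟩ := h2
  rcases chain_elem x y with ⟨c, hc⟩ | ⟨c, hc⟩
  · exact hxH (hc ▸ mul_mem_sub H c y hyH)
  · exact hyK (hc ▸ mul_mem_sub K c x hxK)

/-- Counting cosets. -/
theorem periodic_count {G : Type*} [AddCommGroup G] [Fintype G] [DecidableEq G]
    (K H : AddSubgroup G) (hKH : K ≤ H) (W : Finset G) :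
    (W + fs K + fs H).card * (fs K).card ≤ (W + fs K).card * (fs H).card := by
  have h1 : (W + fs K).card * (fs H).card = ((W + fs K) ×ˢ fs H).card := by
    rw [Finset.card_product]
  rw [h1]
  have h2 := Finset.card_eq_sum_card_fiberwise (f := fun p : G × G => p.1 + p.2)
    (s := (W + fs K) ×ˢ fs H) (t := W + fs K + fs H) (by
      intro p hp
      rw [Finset.mem_coe, Finset.mem_product] at hp
      exact Finset.add_mem_add hp.1 hp.2)
  rw [h2, ← smul_eq_mul]
  apply Finset.card_nsmul_le_sum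
  intro z hz
  obtain ⟨s, hs, h, hh, rfl⟩ := Finset.mem_add.mp hz
  obtain ⟨w, hw, k0, hk0, rfl⟩ := Finset.mem_add.mp hs
  apply Finset.card_le_card_of_injOn (fun k => (w + k0 + k, h - k))
  · intro k hk
    rw [Finset.mem_coe] at hk
    simp only [Finset.coe_filter, Finset.mem_product, Set.mem_ofPred_eq]
    refine ⟨⟨?_, ?_⟩, by abel⟩
    · rw [add_assoc]
      exact Finset.add_mem_add hw (mem_fs.mpr (K.add_mem (mem_fs.mp hk0) (mem_fs.mp hk)))
    · exact mem_fs.mpr (H.sub_mem (mem_fs.mp hh) (hKH (mem_fs.mp hk)))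
  · intro a _ b _ hab
    have := (Prod.ext_iff.mp hab).1
    exact add_left_cancel this

theorem fs_card_eq {G : Type*} [AddCommGroup G] [Fintype G] [DecidableEq G]
    (K : AddSubgroup G) : (fs K).card = Nat.card K := by
  classical
  rw [Nat.card_eq_fintype_card, Fintype.card_subtype]
  congr 1

/-- The key estimate in a fibre. -/
theorem fiber_bound (X W : Finset (ZMod (2 ^ m))) (H : AddSubgroup (ZMod (2 ^ m))) (w : ℕ)
    (hX : X.Nonempty) (hW : ∀ a : ZMod (2 ^ m), ∃ x ∈ W, a - x ∈ H)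
    (hw : Nat.card H * w = 2 ^ m) (hsmall : X.card + w ≤ 2 ^ m + 1) :
    X.card + w ≤ (X + W).card + 1 := by
  have hWne : W.Nonempty := by
    obtain ⟨x, hx, _⟩ := hW 0
    exact ⟨x, hx⟩
  set K := stab (X + W) with hK
  rcases chain_sub K H with hKH | hHK
  · have h1 := kneser' X W hX hWne
    rw [← hK] at h1
    have h2 := periodic_count K H hKH W
    have h3 : (W + fs K + fs H).card = 2 ^ m := by
      have : W + fs K + fs H = Finset.univ := by
        rw [Finset.eq_univ_iff_forall]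
        intro a
        obtain ⟨x, hx, hxa⟩ := hW a
        rw [Finset.mem_add]
        refine ⟨x, ?_, a - x, mem_fs.mpr hxa, by abel⟩
        rw [Finset.mem_add]
        exact ⟨x, hx, 0, mem_fs.mpr K.zero_mem, by simp⟩
      rw [this, Finset.card_univ, ZMod.card]
    rw [h3, fs_card_eq H] at h2
    have h2' : Nat.card H * w * (fs K).card ≤ (W + fs K).card * Nat.card H := by
      rw [hw]; exact h2
    have hHpos : 0 < Nat.card H := Nat.card_pos
    have h4 : w * (fs K).card ≤ (W + fs K).card := by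
      have : Nat.card H * (w * (fs K).card) ≤ Nat.card H * (W + fs K).card := by
        calc Nat.card H * (w * (fs K).card) = Nat.card H * w * (fs K).card := by ring
          _ ≤ (W + fs K).card * Nat.card H := h2'
          _ = _ := mul_comm _ _
      exact Nat.le_of_mul_le_mul_left this hHpos
    have h5 : X.card ≤ (X + fs K).card := Finset.card_le_card_add_right (fs_nonempty K)
    have h6 : 1 ≤ (fs K).card := fs_card_pos K
    have hw1 : 1 ≤ w := by
      rcases Nat.eq_zero_or_pos w with h | h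
      · exfalso
        subst h
        rw [Nat.mul_zero] at hw
        exact absurd hw.symm (pow_ne_zero m two_ne_zero)
      · exact h
    obtain ⟨w', rfl⟩ : ∃ w', w = w' + 1 := ⟨w - 1, by omega⟩
    have h7 : w' ≤ w' * (fs K).card := Nat.le_mul_of_pos_right _ h6
    have h8 : (w' + 1) * (fs K).card = w' * (fs K).card + (fs K).card := by ring
    omega
  · have h1 : X + W = Finset.univ := by
      rw [Finset.eq_univ_iff_forall]
      intro a
      obtain ⟨x, hx⟩ := hX
      obtain ⟨y, hy, hya⟩ := hW (a - x)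
      have h2 : x + y ∈ X + W := Finset.add_mem_add hx hy
      have h3 := stab_add (C := X + W) (hHK hya) h2
      have h4 : x + y + (a - x - y) = a := by abel
      rwa [h4] at h3
    rw [h1, Finset.card_univ, ZMod.card]
    exact hsmall

end chain

section fibers

variable {α β : Type*} [AddCommGroup α] [AddCommGroup β] [DecidableEq α] [DecidableEq β]

/-- The fibre of `P` over `y`. -/
def fib (P : Finset (α × β)) (y : β) : Finset α := (P.filter (fun p => p.2 = y)).image Prod.fst

theorem mem_fib {P : Finset (α × β)} {y : β} {x : α} : x ∈ fib P y ↔ (x, y) ∈ P := by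
  unfold fib
  simp only [Finset.mem_image, Finset.mem_filter]
  constructor
  · rintro ⟨⟨a, b⟩, ⟨h1, h2⟩, h3⟩
    simp only at h2 h3
    subst h2; subst h3
    exact h1
  · intro h
    exact ⟨(x, y), ⟨h, rfl⟩, rfl⟩

theorem card_fib (P : Finset (α × β)) (y : β) :
    (P.filter (fun p => p.2 = y)).card = (fib P y).card := by
  unfold fib
  rw [Finset.card_image_of_injOn]
  intro a ha b hb hab
  simp only [Finset.coe_filter, Set.mem_ofPred_eq] at ha hb
  exact Prod.ext hab (ha.2.trans hb.2.symm)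

theorem card_eq_sum_fib (P : Finset (α × β)) :
    P.card = ∑ y ∈ P.image Prod.snd, (fib P y).card := by
  have := Finset.card_eq_sum_card_image Prod.snd P
  rw [this]
  apply Finset.sum_congr rfl
  intro y _
  exact card_fib P y

theorem fib_add_subset (P : Finset (α × β)) (y z : β) :
    fib P y + fib P z ⊆ fib (P + P) (y + z) := by
  intro x hx
  obtain ⟨a, ha, b, hb, rfl⟩ := Finset.mem_add.mp hx
  rw [mem_fib] at ha hb ⊢
  exact Finset.mem_add.mpr ⟨_, ha, _, hb, rfl⟩

/-- Lower bound for the sumset through the fibres. -/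
theorem sumset_bound (P : Finset (α × β)) (w : ℕ) (hw : 1 ≤ w)
    (h0 : (0 : β) ∈ P.image Prod.snd)
    (hf : ∀ y ∈ P.image Prod.snd, (fib P y).card + w ≤ (fib P y + fib P 0).card + 1) :
    P.card + (P.image Prod.snd).card * (w - 1) +
      ((P.image Prod.snd + P.image Prod.snd) \ P.image Prod.snd).card ≤ (P + P).card := by
  set Y := P.image Prod.snd with hY
  have hYY : (P + P).image Prod.snd = Y + Y := by
    rw [hY]
    exact Finset.image_add (AddMonoidHom.snd α β)
  have hsub : Y ⊆ Y + Y := by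
    intro y hy
    exact Finset.mem_add.mpr ⟨y, hy, 0, h0, add_zero y⟩
  rw [card_eq_sum_fib (P + P), hYY, ← Finset.sum_sdiff hsub]
  have h1 : ((Y + Y) \ Y).card ≤ ∑ y ∈ (Y + Y) \ Y, (fib (P + P) y).card := by
    rw [Finset.card_eq_sum_ones]
    apply Finset.sum_le_sum
    intro y hy
    have hy' : y ∈ (P + P).image Prod.snd := by
      rw [hYY]; exact (Finset.mem_sdiff.mp hy).1
    obtain ⟨⟨a, b⟩, hab, hb⟩ := Finset.mem_image.mp hy'
    simp only at hb
    subst hb
    exact Finset.card_pos.mpr ⟨a, mem_fib.mpr hab⟩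
  have h2 : P.card + Y.card * (w - 1) ≤ ∑ y ∈ Y, (fib (P + P) y).card := by
    rw [card_eq_sum_fib P, ← hY]
    have : Y.card * (w - 1) = ∑ y ∈ Y, (w - 1) := by rw [Finset.sum_const, smul_eq_mul]
    rw [this, ← Finset.sum_add_distrib]
    apply Finset.sum_le_sum
    intro y hy
    have h3 := hf y hy
    have h4 : (fib P y + fib P 0).card ≤ (fib (P + P) y).card := by
      have := Finset.card_le_card (fib_add_subset P y 0)
      rwa [add_zero] at this
    omega
  omega

end fibers


section main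

variable {m q : ℕ} [Fact q.Prime]

theorem vert (hq2 : q ≠ 2) {H : AddSubgroup (ZMod (2 ^ m) × ZMod q)} {x : ZMod (2 ^ m)}
    {y : ZMod q} (hxy : (x, y) ∈ H) (hy : y ≠ 0) (z : ZMod q) :
    ((0 : ZMod (2 ^ m)), z) ∈ H := by
  have h1 : (2 ^ m : ℕ) • (x, y) ∈ H := H.nsmul_mem hxy _
  have h2 : (2 ^ m : ℕ) • (x, y) = ((0 : ZMod (2 ^ m)), (2 : ZMod q) ^ m * y) := by
    rw [Prod.smul_mk]
    congr 1
    · rw [nsmul_eq_mul, ZMod.natCast_self, zero_mul]
    · rw [nsmul_eq_mul]; push_cast; ring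
  rw [h2] at h1
  have h20 : (2 : ZMod q) ≠ 0 := by
    intro h
    have h3 : ((2 : ℕ) : ZMod q) = 0 := by exact_mod_cast h
    rw [ZMod.natCast_eq_zero_iff] at h3
    exact hq2 ((Nat.prime_dvd_prime_iff_eq Fact.out Nat.prime_two).mp h3)
  have hne : (2 : ZMod q) ^ m * y ≠ 0 := mul_ne_zero (pow_ne_zero m h20) hy
  have h4 := H.nsmul_mem h1 (z * ((2 : ZMod q) ^ m * y)⁻¹).val
  have h5 : (z * ((2 : ZMod q) ^ m * y)⁻¹).val • ((0 : ZMod (2 ^ m)), (2 : ZMod q) ^ m * y)
      = ((0 : ZMod (2 ^ m)), z) := by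
    rw [Prod.smul_mk]
    congr 1
    · rw [smul_zero]
    · rw [nsmul_eq_mul, ZMod.natCast_zmod_val, mul_assoc, inv_mul_cancel₀ hne, mul_one]
  rwa [h5] at h4

theorem card_of_vert {H : AddSubgroup (ZMod (2 ^ m) × ZMod q)}
    (hv : ∀ z : ZMod q, ((0 : ZMod (2 ^ m)), z) ∈ H) : q ≤ Nat.card H := by
  classical
  rw [← fs_card_eq]
  calc q = (Finset.univ : Finset (ZMod q)).card := by rw [Finset.card_univ, ZMod.card]
    _ = ((Finset.univ : Finset (ZMod q)).image (fun z => ((0 : ZMod (2 ^ m)), z))).card := by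
        rw [Finset.card_image_of_injective]
        intro a b hab
        exact (Prod.ext_iff.mp hab).2
    _ ≤ _ := by
        apply Finset.card_le_card
        intro p hp
        obtain ⟨z, _, rfl⟩ := Finset.mem_image.mp hp
        exact mem_fs.mpr (hv z)

/-- Reduction mod 2. -/
def red (hm : 1 ≤ m) : ZMod (2 ^ m) →+* ZMod 2 :=
  ZMod.castHom (dvd_pow_self 2 (by omega)) (ZMod 2)

theorem red_unit (hm : 1 ≤ m) {x : ZMod (2 ^ m)} (hx : red hm x ≠ 0) : IsUnit x := by
  have h1 : red hm x = ((x.val : ℕ) : ZMod 2) := by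
    conv_lhs => rw [← ZMod.natCast_zmod_val x]
    rw [map_natCast]
  rw [h1, Ne, ZMod.natCast_eq_zero_iff] at hx
  have h2 : Odd x.val := by
    rcases Nat.even_or_odd x.val with h | h
    · exact absurd h.two_dvd hx
    · exact h
  rw [← ZMod.natCast_zmod_val x, ZMod.isUnit_iff_coprime]
  apply Nat.Coprime.pow_right
  exact (Nat.coprime_comm.mp (Nat.coprime_two_left.mpr h2))

theorem red_of_mem (hm : 1 ≤ m) {H : AddSubgroup (ZMod (2 ^ m) × ZMod q)} (hH : H ≠ ⊤)
    (hv : ∀ z : ZMod q, ((0 : ZMod (2 ^ m)), z) ∈ H) {a : ZMod (2 ^ m) × ZMod q} (ha : a ∈ H) :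
    red hm a.1 = 0 := by
  by_contra hne
  obtain ⟨v, hv1⟩ := red_unit hm hne
  apply hH
  rw [AddSubgroup.eq_top_iff']
  rintro ⟨x, y⟩
  have h1 := H.nsmul_mem ha (x * ((v⁻¹ : (ZMod (2 ^ m))ˣ) : ZMod (2 ^ m))).val
  have h2 : (x * ((v⁻¹ : (ZMod (2 ^ m))ˣ) : ZMod (2 ^ m))).val • a.1 = x := by
    rw [nsmul_eq_mul, ZMod.natCast_zmod_val, ← hv1, mul_assoc, Units.inv_mul, mul_one]
  have h3 := hv (y - (x * ((v⁻¹ : (ZMod (2 ^ m))ˣ) : ZMod (2 ^ m))).val • a.2)
  have h4 := H.add_mem h1 h3
  have h5 : (x * ((v⁻¹ : (ZMod (2 ^ m))ˣ) : ZMod (2 ^ m))).val • a +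
      ((0 : ZMod (2 ^ m)), y - (x * ((v⁻¹ : (ZMod (2 ^ m))ˣ) : ZMod (2 ^ m))).val • a.2)
      = (x, y) := by
    apply Prod.ext
    · rw [Prod.fst_add, Prod.smul_fst, h2]; simp
    · rw [Prod.snd_add, Prod.smul_snd]; simp
  rwa [h5] at h4

theorem caseI_bdd (hm : 1 ≤ m) {H : AddSubgroup (ZMod (2 ^ m) × ZMod q)} (hH : H ≠ ⊤)
    (hv : ∀ z : ZMod q, ((0 : ZMod (2 ^ m)), z) ∈ H) (P : Finset (ZMod (2 ^ m) × ZMod q))
    (hP : P.card < 2 ^ m)
    (h0 : ∀ x : ZMod (2 ^ m), ∃ p ∈ P, (x, (0 : ZMod q)) - p ∈ H) :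
    P.card + 1 ≤ (P + P).card := by
  by_contra hcon
  have hle : (P + P).card ≤ P.card := by omega
  obtain ⟨p, hp, hpH⟩ := h0 0
  obtain ⟨p', hp', hpH'⟩ := h0 1
  have himg : P.image (fun x => p + x) = P + P := by
    apply Finset.eq_of_subset_of_card_le
    · intro y hy
      obtain ⟨x, hx, rfl⟩ := Finset.mem_image.mp hy
      exact Finset.add_mem_add hp hx
    · rw [Finset.card_image_of_injective _ (add_right_injective p)]
      exact hle
  have hstep : ∀ x ∈ P, x + (p' - p) ∈ P := by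
    intro x hx
    have h1 : p' + x ∈ P.image (fun x => p + x) := by
      rw [himg]; exact Finset.add_mem_add hp' hx
    obtain ⟨y, hy, hyx⟩ := Finset.mem_image.mp h1
    have : x + (p' - p) = y := by
      have h2 : y = p' + x - p := by rw [← hyx]; abel
      rw [h2]; abel
    rw [this]; exact hy
  have hiter : ∀ i : ℕ, p + i • (p' - p) ∈ P := by
    intro i
    induction i with
    | zero => simpa using hp
    | succ i ih =>
      have := hstep _ ih
      rwa [add_assoc, ← succ_nsmul] at this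
  have hunit : IsUnit (p' - p).1 := by
    apply red_unit hm
    have h1 := red_of_mem hm hH hv hpH
    have h2 := red_of_mem hm hH hv hpH'
    rw [Prod.fst_sub, map_sub] at h1 h2 ⊢
    rw [sub_eq_zero] at h1 h2
    rw [← h1, ← h2]
    simp
  have hcard : 2 ^ m ≤ P.card := by
    have : ((Finset.range (2 ^ m)).image (fun i : ℕ => p + i • (p' - p))).card = 2 ^ m := by
      rw [Finset.card_image_of_injOn, Finset.card_range]
      intro i hi j hj hij
      simp only [Finset.coe_range, Set.mem_Iio] at hi hj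
      have h1 : i • (p' - p) = j • (p' - p) := add_left_cancel hij
      have h2 : ((i : ℕ) : ZMod (2 ^ m)) * (p' - p).1 = ((j : ℕ) : ZMod (2 ^ m)) * (p' - p).1 := by
        have := congrArg Prod.fst h1
        rw [Prod.smul_fst, Prod.smul_fst, nsmul_eq_mul, nsmul_eq_mul] at this
        exact this
      have h3 := hunit.mul_right_cancel h2
      rw [ZMod.natCast_eq_natCast_iff'] at h3
      rwa [Nat.mod_eq_of_lt hi, Nat.mod_eq_of_lt hj] at h3
    refine le_trans this.ge ?_
    apply Finset.card_le_card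
    intro y hy
    obtain ⟨i, _, rfl⟩ := Finset.mem_image.mp hy
    exact hiter i
  omega

/-- The horizontal part. -/
def hor (H : AddSubgroup (ZMod (2 ^ m) × ZMod q)) : AddSubgroup (ZMod (2 ^ m)) :=
  H.comap (AddMonoidHom.inl (ZMod (2 ^ m)) (ZMod q))

theorem mem_hor {H : AddSubgroup (ZMod (2 ^ m) × ZMod q)} {x : ZMod (2 ^ m)} :
    x ∈ hor H ↔ (x, (0 : ZMod q)) ∈ H := by
  unfold hor
  rw [AddSubgroup.mem_comap]
  rfl

theorem card_hor {H : AddSubgroup (ZMod (2 ^ m) × ZMod q)} (h2 : ∀ a ∈ H, a.2 = 0) :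
    Nat.card (hor H) = Nat.card H := by
  classical
  rw [← fs_card_eq, ← fs_card_eq]
  have : fs H = (fs (hor H)).image (fun x => (x, (0 : ZMod q))) := by
    ext ⟨x, y⟩
    rw [mem_fs, Finset.mem_image]
    constructor
    · intro h
      have hy : y = 0 := h2 _ h
      subst hy
      exact ⟨x, mem_fs.mpr (mem_hor.mpr h), rfl⟩
    · rintro ⟨x', hx', he⟩
      rw [← he]
      exact mem_hor.mp (mem_fs.mp hx')
  rw [this, Finset.card_image_of_injective]
  intro a b hab
  exact (Prod.ext_iff.mp hab).1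

theorem index_le_of_cover (K : AddSubgroup (ZMod (2 ^ m))) (w : ℕ)
    (hw : Nat.card K * w = 2 ^ m) (W : Finset (ZMod (2 ^ m)))
    (hW : ∀ a : ZMod (2 ^ m), ∃ x ∈ W, a - x ∈ K) : w ≤ W.card := by
  have h1 : (Finset.univ : Finset (ZMod (2 ^ m))) = W + fs K := by
    symm
    rw [Finset.eq_univ_iff_forall]
    intro a
    obtain ⟨x, hx, hxa⟩ := hW a
    exact Finset.mem_add.mpr ⟨x, hx, a - x, mem_fs.mpr hxa, by abel⟩
  have h2 : 2 ^ m ≤ W.card * (fs K).card := by
    calc 2 ^ m = (Finset.univ : Finset (ZMod (2 ^ m))).card := by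
          rw [Finset.card_univ, ZMod.card]
      _ = (W + fs K).card := by rw [h1]
      _ ≤ _ := Finset.card_add_le
  rw [fs_card_eq, mul_comm W.card] at h2
  have h3 : Nat.card K * w ≤ Nat.card K * W.card := le_trans hw.le h2
  exact Nat.le_of_mul_le_mul_left h3 Nat.card_pos

theorem cast_ne {q a b : ℕ} (ha : a < q) (hb : b < q) (hab : a ≠ b) :
    ((a : ℕ) : ZMod q) ≠ (b : ℕ) := by
  intro h
  rw [ZMod.natCast_eq_natCast_iff'] at h
  rw [Nat.mod_eq_of_lt ha, Nat.mod_eq_of_lt hb] at h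
  exact hab h

theorem Y_bound (hq7 : 7 ≤ q) (Y : Finset (ZMod q)) (h0 : (0 : ZMod q) ∈ Y)
    (h1 : (1 : ZMod q) ∈ Y) (h3 : (3 : ZMod q) ∈ Y) (hYq : 2 * Y.card ≤ q) (w : ℕ)
    (hw : 1 ≤ w) : 3 * w ≤ Y.card * (w - 1) + ((Y + Y) \ Y).card := by
  have e0 : ((0 : ℕ) : ZMod q) = 0 := by simp
  have e1 : ((1 : ℕ) : ZMod q) = 1 := by simp
  have e2 : ((2 : ℕ) : ZMod q) = 2 := by simp
  have e3 : ((3 : ℕ) : ZMod q) = 3 := by simp
  have e4 : ((4 : ℕ) : ZMod q) = 4 := by simp
  have e6 : ((6 : ℕ) : ZMod q) = 6 := by simp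
  have n01 : (0 : ZMod q) ≠ 1 := by
    have := cast_ne (q := q) (a := 0) (b := 1) (by omega) (by omega) (by omega)
    rwa [e0, e1] at this
  have n03 : (0 : ZMod q) ≠ 3 := by
    have := cast_ne (q := q) (a := 0) (b := 3) (by omega) (by omega) (by omega)
    rwa [e0, e3] at this
  have n13 : (1 : ZMod q) ≠ 3 := by
    have := cast_ne (q := q) (a := 1) (b := 3) (by omega) (by omega) (by omega)
    rwa [e1, e3] at this
  have hsub : ({0, 1, 3} : Finset (ZMod q)) ⊆ Y := by
    intro y hy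
    rw [Finset.mem_insert, Finset.mem_insert, Finset.mem_singleton] at hy
    rcases hy with h | h | h
    · rw [h]; exact h0
    · rw [h]; exact h1
    · rw [h]; exact h3
  have hc3 : ({0, 1, 3} : Finset (ZMod q)).card = 3 := by
    rw [Finset.card_insert_of_notMem, Finset.card_insert_of_notMem, Finset.card_singleton]
    · rw [Finset.mem_singleton]; exact n13
    · rw [Finset.mem_insert, Finset.mem_singleton]
      rintro (h | h)
      · exact n01 h
      · exact n03 h
  have hY3 : 3 ≤ Y.card := by rw [← hc3]; exact Finset.card_le_card hsub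
  rcases Nat.lt_or_ge 3 Y.card with h4 | h4
  · have hcd := ZMod.cauchy_davenport (Fact.out : q.Prime) (s := Y) (t := Y) ⟨0, h0⟩ ⟨0, h0⟩
    have hYY : 2 * Y.card - 1 ≤ (Y + Y).card := by
      have : min q (Y.card + Y.card - 1) = Y.card + Y.card - 1 := by
        apply min_eq_right; omega
      rw [this] at hcd
      omega
    have hsubY : Y ⊆ Y + Y := by
      intro y hy
      exact Finset.mem_add.mpr ⟨y, hy, 0, h0, add_zero y⟩
    have h5 := Finset.card_sdiff_add_card_eq_card hsubY
    have h6 : 4 * (w - 1) ≤ Y.card * (w - 1) := Nat.mul_le_mul_right _ h4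
    omega
  · have hY : Y = {0, 1, 3} := by
      symm
      apply Finset.eq_of_subset_of_card_le hsub
      rw [hc3]; exact h4
    have hsub2 : ({2, 4, 6} : Finset (ZMod q)) ⊆ (Y + Y) \ Y := by
      intro y hy
      rw [Finset.mem_insert, Finset.mem_insert, Finset.mem_singleton] at hy
      rw [Finset.mem_sdiff]
      constructor
      · rcases hy with h | h | h
        · rw [h]; exact Finset.mem_add.mpr ⟨1, h1, 1, h1, by norm_num⟩
        · rw [h]; exact Finset.mem_add.mpr ⟨1, h1, 3, h3, by norm_num⟩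
        · rw [h]; exact Finset.mem_add.mpr ⟨3, h3, 3, h3, by norm_num⟩
      · rw [hY, Finset.mem_insert, Finset.mem_insert, Finset.mem_singleton]
        rcases hy with h | h | h
        · rw [h, ← e2, ← e0, ← e1, ← e3]
          rintro (h | h | h) <;> exact cast_ne (by omega) (by omega) (by omega) h
        · rw [h, ← e4, ← e0, ← e1, ← e3]
          rintro (h | h | h) <;> exact cast_ne (by omega) (by omega) (by omega) h
        · rw [h, ← e6, ← e0, ← e1, ← e3]
          rintro (h | h | h) <;> exact cast_ne (by omega) (by omega) (by omega) h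
    have hc6 : ({2, 4, 6} : Finset (ZMod q)).card = 3 := by
      rw [← e2, ← e4, ← e6]
      rw [Finset.card_insert_of_notMem, Finset.card_insert_of_notMem, Finset.card_singleton]
      · rw [Finset.mem_singleton]; exact cast_ne (by omega) (by omega) (by omega)
      · rw [Finset.mem_insert, Finset.mem_singleton]
        rintro (h | h) <;> exact cast_ne (by omega) (by omega) (by omega) h
    have h7 : 3 ≤ ((Y + Y) \ Y).card := by rw [← hc6]; exact Finset.card_le_card hsub2
    have h8 : Y.card = 3 := by omega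
    rw [h8]
    omega

theorem mem_snd_of_cover {H : AddSubgroup (ZMod (2 ^ m) × ZMod q)} (h2 : ∀ a ∈ H, a.2 = 0)
    {P : Finset (ZMod (2 ^ m) × ZMod q)} {x : ZMod (2 ^ m)} {y : ZMod q}
    (h : ∃ p ∈ P, (x, y) - p ∈ H) : ∃ x', (x', y) ∈ P ∧ x - x' ∈ hor H := by
  obtain ⟨⟨a, b⟩, hp, hpH⟩ := h
  have h3 := h2 _ hpH
  have h4 : y = b := sub_eq_zero.mp h3
  subst h4
  refine ⟨a, hp, ?_⟩
  rw [mem_hor]
  have : (x, y) - (a, y) = (x - a, 0) := by
    rw [Prod.mk_sub_mk, sub_self]
  rwa [this] at hpH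

theorem caseII_bdd (hq7 : 7 ≤ q) {H : AddSubgroup (ZMod (2 ^ m) × ZMod q)}
    (h2 : ∀ a ∈ H, a.2 = 0) (P : Finset (ZMod (2 ^ m) × ZMod q))
    (hP : 2 * P.card ≤ 2 ^ m) (hPq : 2 * P.card ≤ q)
    (h0 : ∀ x : ZMod (2 ^ m), ∃ p ∈ P, (x, (0 : ZMod q)) - p ∈ H)
    (h1 : ∃ p ∈ P, ((0 : ZMod (2 ^ m)), (1 : ZMod q)) - p ∈ H)
    (h3 : ∃ p ∈ P, ((0 : ZMod (2 ^ m)), (3 : ZMod q)) - p ∈ H) :
    P.card * Nat.card H + 3 * 2 ^ m ≤ (P + P).card * Nat.card H := by
  have hcov : ∀ a : ZMod (2 ^ m), ∃ x ∈ fib P 0, a - x ∈ hor H := by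
    intro a
    obtain ⟨x', hx', hx⟩ := mem_snd_of_cover h2 (h0 a)
    exact ⟨x', mem_fib.mpr hx', hx⟩
  have hcw : Nat.card (hor H) * (hor H).index = 2 ^ m := by
    rw [AddSubgroup.card_mul_index, Nat.card_zmod]
  set w := (hor H).index with hwdef
  have hw1 : 1 ≤ w := by
    rcases Nat.eq_zero_or_pos w with h | h
    · exfalso
      rw [h, Nat.mul_zero] at hcw
      exact absurd hcw.symm (pow_ne_zero m two_ne_zero)
    · exact h
  have hwle : w ≤ (fib P 0).card := index_le_of_cover (hor H) w hcw (fib P 0) hcov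
  set Y := P.image Prod.snd with hY
  have hy0 : (0 : ZMod q) ∈ Y := by
    obtain ⟨x', hx', _⟩ := mem_snd_of_cover h2 (h0 0)
    exact Finset.mem_image.mpr ⟨_, hx', rfl⟩
  have hy1 : (1 : ZMod q) ∈ Y := by
    obtain ⟨x', hx', _⟩ := mem_snd_of_cover h2 h1
    exact Finset.mem_image.mpr ⟨_, hx', rfl⟩
  have hy3 : (3 : ZMod q) ∈ Y := by
    obtain ⟨x', hx', _⟩ := mem_snd_of_cover h2 h3
    exact Finset.mem_image.mpr ⟨_, hx', rfl⟩
  have hfib_le : ∀ y : ZMod q, (fib P y).card ≤ P.card := by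
    intro y
    rw [← card_fib]
    exact Finset.card_filter_le _ _
  have hfb : ∀ y ∈ P.image Prod.snd, (fib P y).card + w ≤ (fib P y + fib P 0).card + 1 := by
    intro y hy
    have hne : (fib P y).Nonempty := by
      obtain ⟨⟨a, b⟩, hab, hb⟩ := Finset.mem_image.mp hy
      simp only at hb
      subst hb
      exact ⟨a, mem_fib.mpr hab⟩
    apply fiber_bound (fib P y) (fib P 0) (hor H) w hne hcov hcw
    have h5 := hfib_le y
    have h6 := hfib_le 0
    omega
  have hsb := sumset_bound P w hw1 hy0 hfb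
  rw [← hY] at hsb
  have hYc : Y.card ≤ P.card := Finset.card_image_le
  have hYb := Y_bound hq7 Y hy0 hy1 hy3 (by omega) w hw1
  have hfin : P.card + 3 * w ≤ (P + P).card := by omega
  have h7 : 2 ^ m = w * Nat.card H := by
    rw [← card_hor h2, mul_comm]; exact hcw.symm
  have h8 : (P.card + 3 * w) * Nat.card H = P.card * Nat.card H + 3 * (w * Nat.card H) := by ring
  have h9 := Nat.mul_le_mul_right (Nat.card H) hfin
  rw [h8] at h9
  linarith

theorem ap_caseI (hq5 : 5 * 2 ^ m < q) {H : AddSubgroup (ZMod (2 ^ m) × ZMod q)}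
    (hv : ∀ z : ZMod q, ((0 : ZMod (2 ^ m)), z) ∈ H) (P : Finset (ZMod (2 ^ m) × ZMod q))
    (hP : 2 ≤ P.card) : 5 * 2 ^ m + 2 * Nat.card H < 2 * (P.card * Nat.card H) := by
  have h1 := card_of_vert hv
  have h2 : 2 * Nat.card H ≤ P.card * Nat.card H := Nat.mul_le_mul_right _ hP
  omega

theorem ap_caseII (hq7 : 7 ≤ q) (hm : 1 ≤ m) (hq5 : 5 * 2 ^ m < q)
    {H : AddSubgroup (ZMod (2 ^ m) × ZMod q)}
    (h2 : ∀ a ∈ H, a.2 = 0) (P : Finset (ZMod (2 ^ m) × ZMod q)) (hAP : IsAP P)
    (h0 : ∀ x : ZMod (2 ^ m), ∃ p ∈ P, (x, (0 : ZMod q)) - p ∈ H)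
    (h1 : ∃ p ∈ P, ((0 : ZMod (2 ^ m)), (1 : ZMod q)) - p ∈ H)
    (h3 : ∃ p ∈ P, ((0 : ZMod (2 ^ m)), (3 : ZMod q)) - p ∈ H) :
    5 * 2 ^ m + 2 * Nat.card H < 2 * (P.card * Nat.card H) := by
  by_contra hcon
  push Not at hcon
  obtain ⟨hP2, g, d, N, hPN⟩ := hAP
  have hHpos : 1 ≤ Nat.card H := Nat.card_pos
  have hPq : P.card < q := by
    obtain ⟨c, hc⟩ : ∃ c, P.card = c + 1 := ⟨P.card - 1, by omega⟩
    rw [hc] at hcon
    have h4 : 2 * ((c + 1) * Nat.card H) = 2 * (c * Nat.card H) + 2 * Nat.card H := by ring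
    have h5 : c ≤ c * Nat.card H := Nat.le_mul_of_pos_right _ hHpos
    have h6 : 2 ≤ 2 ^ m := by
      calc 2 = 2 ^ 1 := by norm_num
        _ ≤ 2 ^ m := Nat.pow_le_pow_right (by norm_num) hm
    omega
  have hcov : ∀ a : ZMod (2 ^ m), ∃ x ∈ fib P 0, a - x ∈ hor H := by
    intro a
    obtain ⟨x', hx', hx⟩ := mem_snd_of_cover h2 (h0 a)
    exact ⟨x', mem_fib.mpr hx', hx⟩
  obtain ⟨x0, hx0, _⟩ := mem_snd_of_cover h2 (h0 0)
  obtain ⟨x1, hx1, _⟩ := mem_snd_of_cover h2 h1
  obtain ⟨x3, hx3, _⟩ := mem_snd_of_cover h2 h3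
  obtain ⟨i, hi, hie⟩ := (hPN _).mp hx0
  obtain ⟨j, hj, hje⟩ := (hPN _).mp hx1
  obtain ⟨k, hk, hke⟩ := (hPN _).mp hx3
  have ei : (0 : ZMod q) = g.2 + (i : ZMod q) * d.2 := by
    have := congrArg Prod.snd hie
    rw [Prod.snd_add, Prod.smul_snd, nsmul_eq_mul] at this
    exact this
  have ej : (1 : ZMod q) = g.2 + (j : ZMod q) * d.2 := by
    have := congrArg Prod.snd hje
    rw [Prod.snd_add, Prod.smul_snd, nsmul_eq_mul] at this
    exact this
  have ek : (3 : ZMod q) = g.2 + (k : ZMod q) * d.2 := by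
    have := congrArg Prod.snd hke
    rw [Prod.snd_add, Prod.smul_snd, nsmul_eq_mul] at this
    exact this
  have hd : d.2 ≠ 0 := by
    intro h
    rw [h, mul_zero] at ei ej
    exact zero_ne_one (ei.trans ej.symm)
  have hinj : ∀ a b : ℕ, a < q → b < q →
      g.2 + (a : ZMod q) * d.2 = g.2 + (b : ZMod q) * d.2 → a = b := by
    intro a b ha hb hab
    by_contra hne
    exact cast_ne ha hb hne (mul_right_cancel₀ hd (add_left_cancel hab))
  have hmin : min N q ≤ P.card := by
    have hc : ((Finset.range (min N q)).image (fun i : ℕ => g + i • d)).card = min N q := by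
      rw [Finset.card_image_of_injOn, Finset.card_range]
      intro a ha b hb hab
      simp only [Finset.coe_range, Set.mem_Iio] at ha hb
      have ha' : a < q := lt_of_lt_of_le ha (min_le_right _ _)
      have hb' : b < q := lt_of_lt_of_le hb (min_le_right _ _)
      apply hinj a b ha' hb'
      have := congrArg Prod.snd hab
      rw [Prod.snd_add, Prod.smul_snd, nsmul_eq_mul, Prod.snd_add, Prod.smul_snd,
        nsmul_eq_mul] at this
      exact this
    refine le_trans hc.ge ?_
    apply Finset.card_le_card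
    intro y hy
    obtain ⟨a, ha, rfl⟩ := Finset.mem_image.mp hy
    rw [Finset.mem_range] at ha
    exact (hPN _).mpr ⟨a, lt_of_lt_of_le ha (min_le_left _ _), rfl⟩
  have hN : N ≤ P.card := by
    rcases Nat.le_total N q with h | h
    · rwa [min_eq_left h] at hmin
    · rw [min_eq_right h] at hmin; omega
  have hfib1 : (fib P 0).card ≤ 1 := by
    rw [Finset.card_le_one]
    intro a ha b hb
    rw [mem_fib] at ha hb
    obtain ⟨a', ha', hae⟩ := (hPN _).mp ha
    obtain ⟨b', hb', hbe⟩ := (hPN _).mp hb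
    have e1 : (0 : ZMod q) = g.2 + (a' : ZMod q) * d.2 := by
      have := congrArg Prod.snd hae
      rw [Prod.snd_add, Prod.smul_snd, nsmul_eq_mul] at this
      exact this
    have e2 : (0 : ZMod q) = g.2 + (b' : ZMod q) * d.2 := by
      have := congrArg Prod.snd hbe
      rw [Prod.snd_add, Prod.smul_snd, nsmul_eq_mul] at this
      exact this
    have : a' = b' := hinj a' b' (by omega) (by omega) (e1.symm.trans e2)
    rw [this] at hae
    exact (Prod.ext_iff.mp (hae.trans hbe.symm)).1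
  have hcw : Nat.card (hor H) * (hor H).index = 2 ^ m := by
    rw [AddSubgroup.card_mul_index, Nat.card_zmod]
  set w := (hor H).index with hwdef
  have hw1 : 1 ≤ w := by
    rcases Nat.eq_zero_or_pos w with h | h
    · exfalso
      rw [h, Nat.mul_zero] at hcw
      exact absurd hcw.symm (pow_ne_zero m two_ne_zero)
    · exact h
  have hwle : w ≤ (fib P 0).card := index_le_of_cover (hor H) w hcw (fib P 0) hcov
  have hw : w = 1 := by omega
  rw [hw, mul_one, card_hor h2] at hcw
  have hP3 : P.card ≤ 3 := by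
    by_contra h
    push Not at h
    have h4 : 4 * Nat.card H ≤ P.card * Nat.card H := Nat.mul_le_mul_right _ h
    omega
  have hij : i ≠ j := by
    rintro rfl
    exact zero_ne_one (ei.trans ej.symm)
  have e3 : ((3 : ℕ) : ZMod q) = 3 := by simp
  have e0 : ((0 : ℕ) : ZMod q) = 0 := by simp
  have e1 : ((1 : ℕ) : ZMod q) = 1 := by simp
  have hik : i ≠ k := by
    rintro rfl
    have h5 := cast_ne (q := q) (a := 0) (b := 3) (by omega) (by omega) (by omega)
    rw [e0, e3] at h5
    exact h5 (ei.trans ek.symm)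
  have hjk : j ≠ k := by
    rintro rfl
    have h5 := cast_ne (q := q) (a := 1) (b := 3) (by omega) (by omega) (by omega)
    rw [e1, e3] at h5
    exact h5 (ej.trans ek.symm)
  have key : ((3 * j : ℕ) : ZMod q) = ((2 * i + k : ℕ) : ZMod q) := by
    apply mul_right_cancel₀ hd
    push_cast
    linear_combination (3 : ZMod q) * (-1) * ej + 2 * ei + ek
  have key2 : 3 * j = 2 * i + k := by
    by_contra hne
    exact cast_ne (by omega) (by omega) hne key
  omega

/-- Doubling of a progression. -/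
theorem ap_double {G : Type*} [AddCommGroup G] [Fintype G] [DecidableEq G] (P : Finset G)
    (g d : G) (N : ℕ) (hN : 1 ≤ N) (hPN : ∀ x, x ∈ P ↔ ∃ i : ℕ, i < N ∧ x = g + i • d) :
    2 * P.card ≤ (P + P).card + 1 ∨ addOrderOf d ≤ 2 * P.card := by
  have hinj : ∀ a b : ℕ, a < addOrderOf d → b < addOrderOf d → a • d = b • d → a = b := by
    intro a b ha hb hab
    exact nsmul_injOn_Iio_addOrderOf ha hb hab
  have hPle : P.card ≤ N := by
    have : P ⊆ (Finset.range N).image (fun i : ℕ => g + i • d) := by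
      intro x hx
      obtain ⟨i, hi, rfl⟩ := (hPN x).mp hx
      exact Finset.mem_image.mpr ⟨i, Finset.mem_range.mpr hi, rfl⟩
    calc P.card ≤ _ := Finset.card_le_card this
      _ ≤ (Finset.range N).card := Finset.card_image_le
      _ = N := Finset.card_range N
  rcases Nat.lt_or_ge (addOrderOf d) (2 * N - 1) with hr | hr
  · right
    have hmin : min N (addOrderOf d) ≤ P.card := by
      have hc : ((Finset.range (min N (addOrderOf d))).image (fun i : ℕ => g + i • d)).card
          = min N (addOrderOf d) := by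
        rw [Finset.card_image_of_injOn, Finset.card_range]
        intro a ha b hb hab
        simp only [Finset.coe_range, Set.mem_Iio] at ha hb
        exact hinj a b (lt_of_lt_of_le ha (min_le_right _ _))
          (lt_of_lt_of_le hb (min_le_right _ _)) (add_left_cancel hab)
      refine le_trans hc.ge ?_
      apply Finset.card_le_card
      intro y hy
      obtain ⟨a, ha, rfl⟩ := Finset.mem_image.mp hy
      rw [Finset.mem_range] at ha
      exact (hPN _).mpr ⟨a, lt_of_lt_of_le ha (min_le_left _ _), rfl⟩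
    rcases Nat.le_total N (addOrderOf d) with h | h
    · rw [min_eq_left h] at hmin; omega
    · rw [min_eq_right h] at hmin; omega
  · left
    have hc : ((Finset.range (2 * N - 1)).image (fun i : ℕ => (g + g) + i • d)).card
        = 2 * N - 1 := by
      rw [Finset.card_image_of_injOn, Finset.card_range]
      intro a ha b hb hab
      simp only [Finset.coe_range, Set.mem_Iio] at ha hb
      exact hinj a b (by omega) (by omega) (add_left_cancel hab)
    have hsub : (Finset.range (2 * N - 1)).image (fun i : ℕ => (g + g) + i • d) ⊆ P + P := by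
      intro y hy
      obtain ⟨a, ha, rfl⟩ := Finset.mem_image.mp hy
      rw [Finset.mem_range] at ha
      rw [Finset.mem_add]
      rcases Nat.lt_or_ge a N with h | h
      · exact ⟨g + a • d, (hPN _).mpr ⟨a, h, rfl⟩, g + 0 • d, (hPN _).mpr ⟨0, by omega, rfl⟩,
          by rw [zero_nsmul]; abel⟩
      · refine ⟨g + (N - 1) • d, (hPN _).mpr ⟨N - 1, by omega, rfl⟩, g + (a - (N - 1)) • d,
          (hPN _).mpr ⟨a - (N - 1), by omega, rfl⟩, ?_⟩
        have : a • d = (N - 1) • d + (a - (N - 1)) • d := by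
          rw [← add_nsmul]; congr 1; omega
        rw [this]; abel
    have h1 := Finset.card_le_card hsub
    rw [hc] at h1
    omega

theorem gen_top {S : AddSubgroup (ZMod (2 ^ m) × ZMod q)}
    (h10 : ((1 : ZMod (2 ^ m)), (0 : ZMod q)) ∈ S) (h01 : ((0 : ZMod (2 ^ m)), (1 : ZMod q)) ∈ S) :
    S = ⊤ := by
  rw [AddSubgroup.eq_top_iff']
  rintro ⟨x, y⟩
  have h1 := S.add_mem (S.nsmul_mem h10 x.val) (S.nsmul_mem h01 y.val)
  have h2 : x.val • ((1 : ZMod (2 ^ m)), (0 : ZMod q)) + y.val • ((0 : ZMod (2 ^ m)), (1 : ZMod q))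
      = (x, y) := by
    rw [Prod.smul_mk, Prod.smul_mk, Prod.mk_add_mk, smul_zero, smul_zero, add_zero, zero_add,
      nsmul_eq_mul, nsmul_eq_mul, ZMod.natCast_zmod_val, ZMod.natCast_zmod_val, mul_one, mul_one]
  rwa [h2] at h1

/-- A progression `P` with `P + H` containing the three points satisfies `2|P| ≤ |2P| + 1` or is
very large. -/
theorem ap_lit {H : AddSubgroup (ZMod (2 ^ m) × ZMod q)}
    (P : Finset (ZMod (2 ^ m) × ZMod q)) (hAP : IsAP P)
    (h0 : ∀ x : ZMod (2 ^ m), ∃ p ∈ P, (x, (0 : ZMod q)) - p ∈ H)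
    (h1 : ∃ p ∈ P, ((0 : ZMod (2 ^ m)), (1 : ZMod q)) - p ∈ H)
    (hbig : 2 * (P.card * Nat.card H) < 2 ^ m * q) : 2 * P.card ≤ (P + P).card + 1 := by
  classical
  obtain ⟨hP2, g, d, N, hPN⟩ := hAP
  have hN : 1 ≤ N := by
    by_contra h
    have hN0 : N = 0 := by omega
    have : P = ∅ := by
      rw [Finset.eq_empty_iff_forall_notMem]
      intro x hx
      obtain ⟨i, hi, _⟩ := (hPN x).mp hx
      omega
    rw [this, Finset.card_empty] at hP2
    omega
  rcases ap_double P g d N hN hPN with h | h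
  · exact h
  exfalso
  set L := AddSubgroup.zmultiples d with hL
  have hPL : ∀ p ∈ P, p - g ∈ L ⊔ H := by
    intro p hp
    obtain ⟨i, _, rfl⟩ := (hPN p).mp hp
    have : g + i • d - g = i • d := by abel
    rw [this]
    exact (le_sup_left : L ≤ L ⊔ H) (L.nsmul_mem (AddSubgroup.mem_zmultiples d) i)
  have hcov : ∀ a : ZMod (2 ^ m) × ZMod q, (∃ p ∈ P, a - p ∈ H) → a - g ∈ L ⊔ H := by
    rintro a ⟨p, hp, hpH⟩
    have h5 := (L ⊔ H).add_mem ((le_sup_right : H ≤ L ⊔ H) hpH) (hPL p hp)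
    have : a - p + (p - g) = a - g := by abel
    rwa [this] at h5
  have htop : L ⊔ H = ⊤ := by
    have e0 := hcov _ (h0 0)
    have e1 := hcov _ (h0 1)
    have e2 := hcov _ h1
    apply gen_top
    · have h5 := (L ⊔ H).sub_mem e1 e0
      have : ((1 : ZMod (2 ^ m)), (0 : ZMod q)) - g - (((0 : ZMod (2 ^ m)), (0 : ZMod q)) - g)
          = ((1 : ZMod (2 ^ m)), (0 : ZMod q)) := by
        rw [sub_sub_sub_cancel_right, Prod.mk_sub_mk, sub_zero, sub_zero]
      rwa [this] at h5
    · have h5 := (L ⊔ H).sub_mem e2 e0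
      have : ((0 : ZMod (2 ^ m)), (1 : ZMod q)) - g - (((0 : ZMod (2 ^ m)), (0 : ZMod q)) - g)
          = ((0 : ZMod (2 ^ m)), (1 : ZMod q)) := by
        rw [sub_sub_sub_cancel_right, Prod.mk_sub_mk, sub_zero, sub_zero]
      rwa [this] at h5
  have hcard : (Finset.univ : Finset (ZMod (2 ^ m) × ZMod q)) ⊆ fs L + fs H := by
    intro a _
    have ha : a ∈ L ⊔ H := by rw [htop]; exact AddSubgroup.mem_top a
    obtain ⟨l, hl, b, hb, rfl⟩ := AddSubgroup.mem_sup.mp ha
    exact Finset.add_mem_add (mem_fs.mpr hl) (mem_fs.mpr hb)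
  have h6 := Finset.card_le_card hcard
  have h7 : (fs L + fs H).card ≤ (fs L).card * (fs H).card := Finset.card_add_le
  rw [Finset.card_univ, Fintype.card_prod, ZMod.card, ZMod.card] at h6
  rw [fs_card_eq, fs_card_eq] at h7
  have hLc : Nat.card L = addOrderOf d := by rw [hL, Nat.card_zmultiples]
  rw [hLc] at h7
  have h8 : addOrderOf d * Nat.card H ≤ 2 * P.card * Nat.card H := Nat.mul_le_mul_right _ h
  rw [mul_assoc] at h8
  omega

/-- The even elements of `ZMod (2 ^ m)`. -/
def evens (m : ℕ) : Finset (ZMod (2 ^ m)) := Finset.univ.image (fun x => 2 * x)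

theorem card_evens (hm : 1 ≤ m) : 2 * (evens m).card = 2 ^ m := by
  have h1 : evens m = (Finset.range (2 ^ (m - 1))).image (fun i : ℕ => ((2 * i : ℕ) : ZMod (2 ^ m))) := by
    unfold evens
    ext x
    simp only [Finset.mem_image, Finset.mem_univ, true_and, Finset.mem_range]
    constructor
    · rintro ⟨y, rfl⟩
      refine ⟨y.val % 2 ^ (m - 1), Nat.mod_lt _ (by positivity), ?_⟩
      have h2 : 2 * y = ((2 * y.val : ℕ) : ZMod (2 ^ m)) := by
        push_cast; rw [ZMod.natCast_zmod_val]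
      rw [h2, ZMod.natCast_eq_natCast_iff]
      have h3 : y.val % 2 ^ (m - 1) ≡ y.val [MOD 2 ^ (m - 1)] := Nat.mod_modEq _ _
      have h4 := Nat.ModEq.mul_left' 2 h3
      have h5 : 2 * 2 ^ (m - 1) = 2 ^ m := by
        rw [← pow_succ']; congr 1; omega
      rwa [h5] at h4
    · rintro ⟨i, _, rfl⟩
      exact ⟨(i : ZMod (2 ^ m)), by push_cast; ring⟩
  have h5 : 2 * 2 ^ (m - 1) = 2 ^ m := by
    rw [← pow_succ']; congr 1; omega
  rw [h1, Finset.card_image_of_injOn, Finset.card_range, h5]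
  intro i hi j hj hij
  simp only [Finset.coe_range, Set.mem_Iio] at hi hj
  simp only at hij
  rw [ZMod.natCast_eq_natCast_iff', Nat.mod_eq_of_lt (by omega), Nat.mod_eq_of_lt (by omega)] at hij
  omega

theorem evens_add {x y : ZMod (2 ^ m)} (hx : x ∈ evens m) (hy : y ∈ evens m) :
    x + y ∈ evens m := by
  unfold evens at *
  obtain ⟨a, _, rfl⟩ := Finset.mem_image.mp hx
  obtain ⟨b, _, rfl⟩ := Finset.mem_image.mp hy
  exact Finset.mem_image.mpr ⟨a + b, Finset.mem_univ _, by ring⟩

theorem zero_mem_evens : (0 : ZMod (2 ^ m)) ∈ evens m :=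
  Finset.mem_image.mpr ⟨0, Finset.mem_univ _, by ring⟩

/-- The example set. -/
def exA (m q : ℕ) : Finset (ZMod (2 ^ m) × ZMod q) :=
  (Finset.univ ×ˢ {0}) ∪ (evens m ×ˢ {1, 3})

theorem card_exA (hq7 : 7 ≤ q) (hm : 1 ≤ m) : (exA m q).card = 2 * 2 ^ m := by
  have e0 : ((0 : ℕ) : ZMod q) = 0 := by simp
  have e1 : ((1 : ℕ) : ZMod q) = 1 := by simp
  have e3 : ((3 : ℕ) : ZMod q) = 3 := by simp
  unfold exA
  rw [Finset.card_union_of_disjoint, Finset.card_product, Finset.card_product,
    Finset.card_singleton, Finset.card_univ, ZMod.card, Finset.card_insert_of_notMem,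
    Finset.card_singleton]
  · have := card_evens hm
    omega
  · rw [Finset.mem_singleton, ← e1, ← e3]
    exact cast_ne (by omega) (by omega) (by omega)
  · rw [Finset.disjoint_left]
    rintro ⟨x, y⟩ h1 h2
    rw [Finset.mem_product, Finset.mem_singleton] at h1
    rw [Finset.mem_product, Finset.mem_insert, Finset.mem_singleton] at h2
    have hy : y = 0 := h1.2
    simp only at h2
    rw [hy] at h2
    rcases h2.2 with h | h
    · rw [← e0, ← e1] at h
      exact cast_ne (by omega) (by omega) (by omega) h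
    · rw [← e0, ← e3] at h
      exact cast_ne (by omega) (by omega) (by omega) h

theorem card_exA_add (hm : 1 ≤ m) : 2 * (exA m q + exA m q).card ≤ 9 * 2 ^ m := by
  have hsub : exA m q + exA m q ⊆ (Finset.univ ×ˢ {0, 1, 3}) ∪ (evens m ×ˢ {2, 4, 6}) := by
    intro z hz
    obtain ⟨⟨a, b⟩, ha, ⟨c, d⟩, hc, rfl⟩ := Finset.mem_add.mp hz
    unfold exA at ha hc
    simp only [Finset.mem_union, Finset.mem_product, Finset.mem_univ, true_and,
      Finset.mem_singleton, Finset.mem_insert] at ha hc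
    simp only [Prod.mk_add_mk, Finset.mem_union, Finset.mem_product, Finset.mem_univ, true_and,
      Finset.mem_singleton, Finset.mem_insert]
    rcases ha with rfl | ⟨ha, rfl | rfl⟩
    · left
      rcases hc with rfl | ⟨_, rfl | rfl⟩ <;> simp
    · rcases hc with rfl | ⟨hc, rfl | rfl⟩
      · left; simp
      · right; exact ⟨evens_add ha hc, by left; norm_num⟩
      · right; exact ⟨evens_add ha hc, by right; left; norm_num⟩
    · rcases hc with rfl | ⟨hc, rfl | rfl⟩
      · left; simp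
      · right; exact ⟨evens_add ha hc, by right; left; norm_num⟩
      · right; exact ⟨evens_add ha hc, by right; right; norm_num⟩
  have h1 := Finset.card_le_card hsub
  have h2 : ((Finset.univ ×ˢ {0, 1, 3}) ∪ (evens m ×ˢ {2, 4, 6}) :
      Finset (ZMod (2 ^ m) × ZMod q)).card ≤ 2 ^ m * 3 + (evens m).card * 3 := by
    refine (Finset.card_union_le _ _).trans ?_
    rw [Finset.card_product, Finset.card_product, Finset.card_univ, ZMod.card]
    exact Nat.add_le_add (Nat.mul_le_mul_left _ Finset.card_le_three)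
      (Nat.mul_le_mul_left _ Finset.card_le_three)
  have h3 := card_evens hm
  omega

/-- The conclusion: no efficient container. -/
def Bad {G : Type*} [AddCommGroup G] [DecidableEq G] (C : ℕ) (A : Finset G) : Prop :=
  ∀ (H : AddSubgroup G) (P : Finset G), H ≠ ⊤ → (∀ a ∈ A, ∃ p ∈ P, a - p ∈ H) →
    (P.card ≤ C →
      (A + A).card + P.card * Nat.card H < A.card + (P + P).card * Nat.card H) ∧
    (IsAP P → (A + A).card + Nat.card H < A.card + P.card * Nat.card H) ∧
    (IsAP P → P.card * Nat.card H ≤ C * A.card →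
      (A + A).card + P.card * Nat.card H < A.card + (P + P).card * Nat.card H)

theorem bad_exA (C : ℕ) (hm : 1 ≤ m) (hC : 2 * C < 2 ^ m) (hq7 : 7 ≤ q)
    (hq5 : 5 * 2 ^ m < q) (hqC : 4 * C < q) : Bad C (exA m q) := by
  intro H P hH hcov
  have hA := card_exA (m := m) hq7 hm
  have hAA := card_exA_add (m := m) (q := q) hm
  have h0 : ∀ x : ZMod (2 ^ m), ∃ p ∈ P, (x, (0 : ZMod q)) - p ∈ H := by
    intro x
    apply hcov
    unfold exA
    rw [Finset.mem_union, Finset.mem_product]
    left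
    exact ⟨Finset.mem_univ _, Finset.mem_singleton_self _⟩
  have h1 : ∃ p ∈ P, ((0 : ZMod (2 ^ m)), (1 : ZMod q)) - p ∈ H := by
    apply hcov
    unfold exA
    rw [Finset.mem_union, Finset.mem_product, Finset.mem_product]
    right
    exact ⟨zero_mem_evens, Finset.mem_insert_self _ _⟩
  have h3 : ∃ p ∈ P, ((0 : ZMod (2 ^ m)), (3 : ZMod q)) - p ∈ H := by
    apply hcov
    unfold exA
    rw [Finset.mem_union, Finset.mem_product, Finset.mem_product]
    right
    exact ⟨zero_mem_evens, Finset.mem_insert_of_mem (Finset.mem_singleton_self _)⟩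
  have hq2 : q ≠ 2 := by omega
  have hap : IsAP P → (exA m q + exA m q).card + Nat.card H
      < (exA m q).card + P.card * Nat.card H := by
    intro hAP
    have h5 : 5 * 2 ^ m + 2 * Nat.card H < 2 * (P.card * Nat.card H) := by
      by_cases hc : ∀ a ∈ H, a.2 = 0
      · exact ap_caseII hq7 hm hq5 hc P hAP h0 h1 h3
      · push Not at hc
        obtain ⟨⟨x, y⟩, hxy, hy⟩ := hc
        exact ap_caseI hq5 (fun z => vert hq2 hxy hy z) P hAP.1
    omega
  refine ⟨?_, hap, ?_⟩
  · intro hPC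
    by_cases hc : ∀ a ∈ H, a.2 = 0
    · have h5 := caseII_bdd hq7 hc P (by omega) (by omega) h0 h1 h3
      have : 0 < 2 ^ m := by positivity
      omega
    · push Not at hc
      obtain ⟨⟨x, y⟩, hxy, hy⟩ := hc
      have hv := fun z => vert hq2 hxy hy z
      have h5 := caseI_bdd hm hH hv P (by omega) h0
      have h6 := card_of_vert hv
      have h7 : (P.card + 1) * Nat.card H ≤ (P + P).card * Nat.card H :=
        Nat.mul_le_mul_right _ h5
      rw [add_mul, one_mul] at h7
      omega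
  · intro hAP hbig
    have h5 := hap hAP
    have h6 : 2 * (P.card * Nat.card H) < 2 ^ m * q := by
      calc 2 * (P.card * Nat.card H) ≤ 2 * (C * (exA m q).card) := by omega
        _ = 4 * C * 2 ^ m := by rw [hA]; ring
        _ < q * 2 ^ m := Nat.mul_lt_mul_of_pos_right hqC (by positivity)
        _ = 2 ^ m * q := mul_comm _ _
    have h7 := ap_lit P hAP h0 h1 h6
    have h8 : 2 * P.card * Nat.card H ≤ ((P + P).card + 1) * Nat.card H :=
      Nat.mul_le_mul_right _ h7
    have h9 : ((P + P).card + 1) * Nat.card H = (P + P).card * Nat.card H + Nat.card H := by ring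
    have h10 : 2 * P.card * Nat.card H = P.card * Nat.card H + P.card * Nat.card H := by ring
    omega

theorem bad_map {G G' : Type*} [AddCommGroup G] [AddCommGroup G'] [DecidableEq G]
    [DecidableEq G'] (e : G ≃+ G') (C : ℕ) (A : Finset G) (hA : Bad C A) :
    Bad C (A.image e) := by
  have hinj : Function.Injective e := e.injective
  have hinj' : Function.Injective e.symm := e.symm.injective
  intro H P hH hcov
  have hback : ∀ S : Finset G', (S.image e.symm).card = S.card := fun S =>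
    Finset.card_image_of_injective S hinj'
  have hcardA : (A.image e).card = A.card := Finset.card_image_of_injective A hinj
  have hAA : (A.image e + A.image e).card = (A + A).card := by
    rw [← Finset.image_add e, Finset.card_image_of_injective _ hinj]
  have hPP : (P.image e.symm + P.image e.symm).card = (P + P).card := by
    rw [← Finset.image_add e.symm, Finset.card_image_of_injective _ hinj']
  have hHc : Nat.card (H.comap e.toAddMonoidHom) = Nat.card H := by
    apply Nat.card_congr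
    exact {
      toFun := fun x => ⟨e x.1, x.2⟩
      invFun := fun y => ⟨e.symm y.1, by
        rw [AddSubgroup.mem_comap]
        show e (e.symm y.1) ∈ H
        rw [e.apply_symm_apply]; exact y.2⟩
      left_inv := fun x => by ext; simp
      right_inv := fun y => by ext; simp }
  have hHtop : H.comap e.toAddMonoidHom ≠ ⊤ := by
    intro h
    apply hH
    rw [AddSubgroup.eq_top_iff'] at h ⊢
    intro y
    have := h (e.symm y)
    rw [AddSubgroup.mem_comap] at this
    have h2 : e (e.symm y) ∈ H := this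
    rwa [e.apply_symm_apply] at h2
  have hcov' : ∀ a ∈ A, ∃ p ∈ P.image e.symm, a - p ∈ H.comap e.toAddMonoidHom := by
    intro a ha
    obtain ⟨p, hp, hpH⟩ := hcov (e a) (Finset.mem_image_of_mem e ha)
    refine ⟨e.symm p, Finset.mem_image_of_mem _ hp, ?_⟩
    rw [AddSubgroup.mem_comap]
    show e (a - e.symm p) ∈ H
    rw [map_sub, e.apply_symm_apply]
    exact hpH
  have hAPiff : IsAP P → IsAP (P.image e.symm) := by
    rintro ⟨h2, g, d, N, hN⟩
    refine ⟨by rw [hback]; exact h2, e.symm g, e.symm d, N, ?_⟩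
    intro x
    rw [Finset.mem_image]
    constructor
    · rintro ⟨y, hy, rfl⟩
      obtain ⟨i, hi, rfl⟩ := (hN y).mp hy
      exact ⟨i, hi, by rw [map_add, map_nsmul]⟩
    · rintro ⟨i, hi, rfl⟩
      exact ⟨g + i • d, (hN _).mpr ⟨i, hi, rfl⟩, by rw [map_add, map_nsmul]⟩
  obtain ⟨b1, b2, b3⟩ := hA (H.comap e.toAddMonoidHom) (P.image e.symm) hHtop hcov'
  rw [hback, hHc, hPP] at b1 b3
  rw [hback, hHc] at b2
  rw [hcardA, hAA]
  exact ⟨b1, fun h => b2 (hAPiff h), fun h => b3 (hAPiff h)⟩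

theorem exists_example (C : ℕ) : ∃ (n : ℕ) (A : Finset (ZMod n)), 0 < n ∧ A.Nonempty ∧
    C * A.card < n ∧ 4 * (A + A).card ≤ 9 * A.card ∧ Bad C A := by
  obtain ⟨q, hqge, hq⟩ := Nat.exists_infinite_primes
    (5 * 2 ^ (2 * C + 1) + 4 * C + 2 * C + 8)
  have : Fact q.Prime := ⟨hq⟩
  have hm : 1 ≤ 2 * C + 1 := by omega
  have hC2 : 2 * C < 2 ^ (2 * C + 1) := by
    have := @Nat.lt_two_pow_self (2 * C + 1)
    omega
  have hcop : Nat.Coprime (2 ^ (2 * C + 1)) q := by
    apply Nat.Coprime.pow_left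
    rw [Nat.coprime_primes Nat.prime_two hq]
    omega
  set m := 2 * C + 1 with hmdef
  set e := (ZMod.chineseRemainder hcop).symm.toAddEquiv with he
  have hA := card_exA (m := m) (q := q) (by omega) hm
  have hAA := card_exA_add (m := m) (q := q) hm
  have hbad := bad_exA (m := m) (q := q) C hm hC2 (by omega) (by omega) (by omega)
  refine ⟨2 ^ m * q, (exA m q).image e, Nat.mul_pos (by positivity) hq.pos, ?_, ?_, ?_,
    bad_map e C _ hbad⟩
  · rw [Finset.image_nonempty, ← Finset.card_pos, hA]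
    positivity
  · rw [Finset.card_image_of_injective _ e.injective, hA]
    calc C * (2 * 2 ^ m) = 2 ^ m * (2 * C) := by ring
      _ < 2 ^ m * q := Nat.mul_lt_mul_of_pos_left (by omega) (by positivity)
  · rw [← Finset.image_add e, Finset.card_image_of_injective _ e.injective,
      Finset.card_image_of_injective _ e.injective, hA]
    omega

end main

end Pool.Agent.R92.Lev
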